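import Pool.Agent.Helper35.GT.Inst

/-!
# Greedy decision trees: the lower bound
-/

set_option autoImplicit false

open Finset

namespace Pool.Agent.Helper35.GT

theorem disj_blk {K r u m : ℕ} {E : Finset (ℕ × ℕ)} (hE : ∀ p ∈ E, p.1 = K ∧ p.2 < r) :
    Disjoint (blk K u m) E := by
  rw [Finset.disjoint_left]
  intro p hp hq
  have h1 := (mem_blk.1 hp).1
  have h2 := (hE p hq).1
  omega

/-- all tests have a small part on the block -/
theorem mn_block {K r M u m a : ℕ} {G E F : Finset (ℕ × ℕ)} (hK : 4 ≤ K) (ha : a = m / K + 1)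
    (hF : ∀ f ∈ F, f.2 ≤ f.1 + a) (hE : ∀ p ∈ E, p.1 = K ∧ p.2 < r)
    (hG : ∀ g ∈ G, g ∈ F ∨ g.2 ≤ u ∨ u + m ≤ g.1 ∨ (g.1 ≤ u ∧ u + m ≤ g.2 ∧ E = ∅))
    (k : Fm K r M G) : mn fev (blk K u m ∪ E) k ≤ K * a := by
  have hKa : m < K * a := by
    rw [ha]
    exact Nat.lt_mul_div_succ m (by omega)
  have hgrp : ∀ i < K, ∀ p ∈ blk K u m ∪ E, p.1 = i → p ∈ ({i} : Finset ℕ) ×ˢ Ico u (u + m) := by
    intro i hi p hp hpi
    rw [Finset.mem_union] at hp
    rcases hp with hp | hp
    · rw [mem_blk] at hp
      rw [Finset.mem_product, Finset.mem_singleton, Finset.mem_Ico]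
      exact ⟨hpi, hp.2⟩
    · have := (hE p hp).1
      omega
  have hcard : ∀ i, (({i} : Finset ℕ) ×ˢ Ico u (u + m)).card = m := by
    intro i
    rw [Finset.card_product, Finset.card_singleton, Nat.card_Ico]
    omega
  obtain ⟨k, hk⟩ := k
  rcases k with i | ⟨i, j⟩ | e | ⟨v, w⟩
  · have hi : i < K := hk
    refine (mn_le_card (A := ({i} : Finset ℕ) ×ˢ Ico u (u + m)) ?_).trans (by rw [hcard]; omega)
    intro p hp
    rw [mem_part] at hp
    have h2 : decide (p.1 = i) = true := hp.2
    exact hgrp i hi p hp.1 (of_decide_eq_true h2)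
  · have hi : i < K := hk.1
    refine (mn_le_card (A := ({i} : Finset ℕ) ×ˢ Ico u (u + m)) ?_).trans (by rw [hcard]; omega)
    intro p hp
    rw [mem_part] at hp
    have h2 : (decide (p.1 = i) && p.2.testBit j) = true := hp.2
    rw [Bool.and_eq_true] at h2
    exact hgrp i hi p hp.1 (of_decide_eq_true h2.1)
  · refine (mn_le_card (A := {(K, e)}) ?_).trans (by rw [Finset.card_singleton]; omega)
    intro p hp
    rw [mem_part] at hp
    have h2 : decide (p = (K, e)) = true := hp.2
    rw [Finset.mem_singleton]
    exact of_decide_eq_true h2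
  · have hvw : (v, w) ∈ G := hk
    have hout : (w ≤ u ∨ u + m ≤ v) → mn fev (blk K u m ∪ E) (⟨.seg v w, hk⟩ : Fm K r M G) ≤ K * a := by
      intro hor
      have h0 : part fev (blk K u m ∪ E) (⟨.seg v w, hk⟩ : Fm K r M G) true = ∅ := by
        rw [Finset.eq_empty_iff_forall_notMem]
        intro p hp
        rw [mem_part] at hp
        have h2 : decide (p.1 < K ∧ v ≤ p.2 ∧ p.2 < w) = true := hp.2
        have h3 := of_decide_eq_true h2
        have h4 := Finset.mem_union.1 hp.1
        rcases h4 with h4 | h4
        · rw [mem_blk] at h4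
          omega
        · have := (hE p h4).1
          omega
      unfold mn
      rw [h0, Finset.card_empty, Nat.zero_min]
      exact Nat.zero_le _
    rcases hG (v, w) hvw with h | h | h | h
    · refine (mn_le_card (A := range K ×ˢ Ico v w) ?_).trans ?_
      · intro p hp
        rw [mem_part] at hp
        have h2 : decide (p.1 < K ∧ v ≤ p.2 ∧ p.2 < w) = true := hp.2
        have h3 := of_decide_eq_true h2
        rw [Finset.mem_product, Finset.mem_range, Finset.mem_Ico]
        exact h3
      · rw [Finset.card_product, Finset.card_range, Nat.card_Ico]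
        apply Nat.mul_le_mul_left
        have := hF _ h
        simp only at this
        omega
    · exact hout (Or.inl h)
    · exact hout (Or.inr h)
    · obtain ⟨h1, h2, h3⟩ := h
      simp only at h1 h2
      have h0 : part fev (blk K u m ∪ E) (⟨.seg v w, hk⟩ : Fm K r M G) false = ∅ := by
        rw [Finset.eq_empty_iff_forall_notMem]
        intro p hp
        rw [mem_part] at hp
        have h4 : decide (p.1 < K ∧ v ≤ p.2 ∧ p.2 < w) = false := hp.2
        have h5 := of_decide_eq_false h4
        have h6 := Finset.mem_union.1 hp.1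
        rcases h6 with h6 | h6
        · rw [mem_blk] at h6
          omega
        · rw [h3] at h6
          exact absurd h6 (Finset.notMem_empty _)
      unfold mn
      rw [h0, Finset.card_empty, Nat.min_zero]
      exact Nat.zero_le _

theorem greedy_block {K r M : ℕ} (hK : 4 ≤ K) (m : ℕ) : ∀ u, ∃ F : Finset (ℕ × ℕ),
    (∀ f ∈ F, u ≤ f.1 ∧ f.2 ≤ u + m ∧ f.2 ≤ f.1 + (m / K + 1)) ∧
    ∀ (G : Finset (ℕ × ℕ)) (E : Finset (ℕ × ℕ)), F ⊆ G → (∀ p ∈ E, p.1 = K ∧ p.2 < r) →
      (∀ g ∈ G, g ∈ F ∨ g.2 ≤ u ∨ u + m ≤ g.1 ∨ (g.1 ≤ u ∧ u + m ≤ g.2 ∧ E = ∅)) → 1 ≤ m →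
      u + m ≤ 2 ^ M →
      ∃ t : DTree (Fm K r M G), IsGreedy fev t (blk K u m ∪ E) ∧
        fK K m ≤ (cost fev t (blk K u m ∪ E) : ℝ) := by
  induction m using Nat.strong_induction_on with
  | _ m ih =>
    intro u
    by_cases hm : m < K ^ 2
    · refine ⟨∅, fun f hf => absurd hf (Finset.notMem_empty _), ?_⟩
      intro G E _ hE _ hm1 hM
      have hne : (blk K u m ∪ E).Nonempty :=
        ⟨(0, u), Finset.mem_union_left _ (mem_blk.2 ⟨by omega, le_refl _, by omega⟩)⟩
      have hsep : ∀ x ∈ blk K u m ∪ E, ∀ y ∈ blk K u m ∪ E, x ≠ y → ∃ k : Fm K r M G, fev k x ≠ fev k y := by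
        intro x hx y hy hxy
        apply fam_sep _ _ hxy
        · rcases Finset.mem_union.1 hx with hx | hx
          · rw [mem_blk] at hx
            exact Or.inl ⟨hx.1, by omega⟩
          · exact Or.inr (hE x hx)
        · rcases Finset.mem_union.1 hy with hy | hy
          · rw [mem_blk] at hy
            exact Or.inl ⟨hy.1, by omega⟩
          · exact Or.inr (hE y hy)
      obtain ⟨t, ht⟩ := exists_greedy _ (blk K u m ∪ E) rfl hne hsep
      exact ⟨t, ht, (fK_neg hm hm1).trans (Nat.cast_nonneg _)⟩
    · push Not at hm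
      obtain ⟨a, ha⟩ : ∃ a, a = m / K + 1 := ⟨_, rfl⟩
      have hm16 : 16 ≤ m := by nlinarith
      have ha1 : 1 ≤ a := by rw [ha]; exact Nat.le_add_left 1 _
      have ham : 2 * a ≤ m := by
        have h1 : m / K ≤ m / 4 := Nat.div_le_div_left hK (by norm_num)
        omega
      obtain ⟨F1, hF1, H1⟩ := ih a (by omega) u
      obtain ⟨F2, hF2, H2⟩ := ih (m - a) (by omega) (u + a)
      have d1 : a / K ≤ m / K := Nat.div_le_div_right (by omega)
      have d2 : (m - a) / K ≤ m / K := Nat.div_le_div_right (by omega)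
      have hFall : ∀ f ∈ insert (u, u + a) (F1 ∪ F2), u ≤ f.1 ∧ f.2 ≤ u + m ∧ f.2 ≤ f.1 + a := by
        intro f hf
        rw [Finset.mem_insert, Finset.mem_union] at hf
        rcases hf with rfl | hf | hf
        · simp only
          omega
        · have := hF1 f hf
          omega
        · have := hF2 f hf
          omega
      refine ⟨insert (u, u + a) (F1 ∪ F2), by rw [← ha]; exact hFall, ?_⟩
      intro G E hFG hE hG hm1 hM
      have hmem : (u, u + a) ∈ G := hFG (Finset.mem_insert_self _ _)
      have hF1G : F1 ⊆ G := fun f hf => hFG (Finset.mem_insert_of_mem (Finset.mem_union_left _ hf))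
      have hF2G : F2 ⊆ G := fun f hf => hFG (Finset.mem_insert_of_mem (Finset.mem_union_right _ hf))
      -- the heavy and the light blocks
      obtain ⟨t1, ht1, hc1⟩ := H1 G ∅ hF1G (fun p hp => absurd hp (Finset.notMem_empty _)) (by
        intro g hg
        rcases hG g hg with h | h | h | h
        · rw [Finset.mem_insert, Finset.mem_union] at h
          rcases h with rfl | h | h
          · right; right; right
            exact ⟨le_refl _, le_refl _, rfl⟩
          · exact Or.inl h
          · have := hF2 g h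
            right; right; left
            omega
        · exact Or.inr (Or.inl h)
        · right; right; left
          omega
        · right; right; right
          exact ⟨h.1, by omega, rfl⟩) ha1 (by omega)
      obtain ⟨t2, ht2, hc2⟩ := H2 G E hF2G hE (by
        intro g hg
        rcases hG g hg with h | h | h | h
        · rw [Finset.mem_insert, Finset.mem_union] at h
          rcases h with rfl | h | h
          · right; left
            exact le_refl _
          · have := hF1 g h
            right; left
            omega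
          · exact Or.inl h
        · right; left
          omega
        · right; right; left
          omega
        · right; right; right
          exact ⟨by omega, by omega, h.2.2⟩) (by omega) (by omega)
      rw [Finset.union_empty] at ht1 hc1
      let k0 : Fm K r M G := ⟨.seg u (u + a), hmem⟩
      have hp1 : part fev (blk K u m ∪ E) k0 true = blk K u a := by
        ext p
        rw [mem_part, mem_blk, Finset.mem_union, mem_blk]
        constructor
        · rintro ⟨_, h2⟩
          have h2' : decide (p.1 < K ∧ u ≤ p.2 ∧ p.2 < u + a) = true := h2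
          exact of_decide_eq_true h2'
        · intro h
          refine ⟨Or.inl ⟨h.1, h.2.1, by omega⟩, ?_⟩
          show decide (p.1 < K ∧ u ≤ p.2 ∧ p.2 < u + a) = true
          exact decide_eq_true h
      have hp2 : part fev (blk K u m ∪ E) k0 false = blk K (u + a) (m - a) ∪ E := by
        ext p
        rw [mem_part, Finset.mem_union, Finset.mem_union, mem_blk, mem_blk]
        constructor
        · rintro ⟨h1, h2⟩
          have h2' : decide (p.1 < K ∧ u ≤ p.2 ∧ p.2 < u + a) = false := h2
          have h3 := of_decide_eq_false h2'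
          rcases h1 with h1 | h1
          · left
            refine ⟨h1.1, ?_, by omega⟩
            by_contra hlt
            exact h3 ⟨h1.1, h1.2.1, by omega⟩
          · exact Or.inr h1
        · intro h
          have hd : (p.1 < K ∧ u ≤ p.2 ∧ p.2 < u + m ∨ p ∈ E) ∧ ¬ (p.1 < K ∧ u ≤ p.2 ∧ p.2 < u + a) := by
            rcases h with h | h
            · exact ⟨Or.inl ⟨h.1, by omega, by omega⟩, by omega⟩
            · have := (hE p h).1
              exact ⟨Or.inr h, by omega⟩
          refine ⟨hd.1, ?_⟩
          show decide (p.1 < K ∧ u ≤ p.2 ∧ p.2 < u + a) = false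
          exact decide_eq_false hd.2
      have hspl : Splits fev (blk K u m ∪ E) k0 := by
        unfold Splits
        rw [hp1, hp2]
        exact ⟨⟨(0, u), mem_blk.2 ⟨by omega, le_refl _, by omega⟩⟩,
          ⟨(0, u + a), Finset.mem_union_left _ (mem_blk.2 ⟨by omega, le_refl _, by omega⟩)⟩⟩
      have hmn : K * a ≤ mn fev (blk K u m ∪ E) k0 := by
        unfold mn
        rw [hp1, hp2, blk_card]
        apply le_min le_rfl
        calc K * a ≤ K * (m - a) := Nat.mul_le_mul_left _ (by omega)
          _ = (blk K (u + a) (m - a)).card := (blk_card _ _ _).symm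
          _ ≤ _ := Finset.card_le_card Finset.subset_union_left
      have hle : ∀ j : Fm K r M G, mn fev (blk K u m ∪ E) j ≤ K * a :=
        mn_block hK ha (fun f hf => (hFall f hf).2.2) hE hG
      refine ⟨.node k0 t1 t2, ⟨hspl, fun j hj => score_le hj hspl ((hle j).trans hmn), ?_, ?_⟩, ?_⟩
      · rw [hp1]; exact ht1
      · rw [hp2]; exact ht2
      · rw [cost_node, hp1, hp2]
        have hcard : K * m ≤ (blk K u m ∪ E).card := by
          rw [← blk_card K u m]
          exact Finset.card_le_card Finset.subset_union_left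
        have hcardr : (K : ℝ) * m ≤ ((blk K u m ∪ E).card : ℝ) := by exact_mod_cast hcard
        have := fK_step hK hm ha
        push_cast
        linarith

/-- The items of the groups `≥ i` and the extra items. -/
def rest (K N r i : ℕ) : Finset (ℕ × ℕ) := (Ico i K ×ˢ range N) ∪ ({K} ×ˢ range r)

theorem mem_rest {K N r i : ℕ} {p : ℕ × ℕ} : p ∈ rest K N r i ↔
    ((i ≤ p.1 ∧ p.1 < K) ∧ p.2 < N) ∨ (p.1 = K ∧ p.2 < r) := by
  unfold rest
  rw [Finset.mem_union, Finset.mem_product, Finset.mem_product, Finset.mem_Ico, Finset.mem_range,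
    Finset.mem_range, Finset.mem_singleton]

theorem rest_card (K N r i : ℕ) : (rest K N r i).card = (K - i) * N + r := by
  unfold rest
  rw [Finset.card_union_of_disjoint, Finset.card_product, Finset.card_product, Nat.card_Ico,
    Finset.card_range, Finset.card_range, Finset.card_singleton, one_mul]
  rw [Finset.disjoint_left]
  intro p hp hq
  rw [Finset.mem_product, Finset.mem_Ico] at hp
  rw [Finset.mem_product, Finset.mem_singleton] at hq
  omega

theorem opt_tree {K N r M : ℕ} {G : Finset (ℕ × ℕ)} (hN : 1 ≤ N) (hr : 1 ≤ r) (hM : N ≤ 2 ^ M) (d : ℕ) :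
    ∀ i, i + d = K → ∃ T : DTree (Fm K r M G), IsTree fev T (rest K N r i) ∧
      2 * cost fev T (rest K N r i) ≤ N * (d * (d + 1)) + 2 * (r * d) + 2 * (d * (N * M)) + 2 * (r * r) := by
  induction d with
  | zero =>
    intro i hi
    have hiK : i = K := by omega
    subst hiK
    have hrest : ∀ p, p ∈ rest i N r i ↔ (p.1 = i ∧ p.2 < r) := by
      intro p
      rw [mem_rest]
      omega
    obtain ⟨T, hT, hd⟩ := tree_of_list (ev := (fev : Fm i r M G → ℕ × ℕ → Bool))
      ((List.finRange r).map fun e : Fin r => (⟨.one e.1, e.2⟩ : Fm i r M G)) (rest i N r i)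
      ⟨(i, 0), (hrest _).2 ⟨rfl, by omega⟩⟩ (by
        intro x hx y hy hxy
        have hx := (hrest x).1 hx
        have hy := (hrest y).1 hy
        refine ⟨⟨.one x.2, hx.2⟩, List.mem_map.2 ⟨⟨x.2, hx.2⟩, List.mem_finRange _, rfl⟩, ?_⟩
        show decide (x = (i, x.2)) ≠ decide (y = (i, x.2))
        rw [decide_eq_true (show x = (i, x.2) from Prod.ext hx.1 rfl), decide_eq_false]
        · exact Bool.noConfusion
        · intro h
          apply hxy
          rw [h]
          exact Prod.ext hx.1 rfl)
    refine ⟨T, hT, ?_⟩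
    rw [List.length_map, List.length_finRange] at hd
    have h1 := cost_le_of_depth hd
    rw [rest_card, Nat.sub_self, Nat.zero_mul, Nat.zero_add] at h1
    omega
  | succ d ih =>
    intro i hi
    have hiK : i < K := by omega
    obtain ⟨T', hT', hc'⟩ := ih (i + 1) (by omega)
    let k0 : Fm K r M G := ⟨.grp i, hiK⟩
    have hp1 : part fev (rest K N r i) k0 true = {i} ×ˢ range N := by
      ext p
      rw [mem_part, mem_rest, Finset.mem_product, Finset.mem_singleton, Finset.mem_range]
      constructor
      · rintro ⟨h1, h2⟩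
        have h2' : decide (p.1 = i) = true := h2
        have h3 := of_decide_eq_true h2'
        omega
      · intro h
        refine ⟨by omega, ?_⟩
        show decide (p.1 = i) = true
        exact decide_eq_true h.1
    have hp2 : part fev (rest K N r i) k0 false = rest K N r (i + 1) := by
      ext p
      rw [mem_part, mem_rest, mem_rest]
      constructor
      · rintro ⟨h1, h2⟩
        have h2' : decide (p.1 = i) = false := h2
        have h3 := of_decide_eq_false h2'
        omega
      · intro h
        refine ⟨by omega, ?_⟩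
        show decide (p.1 = i) = false
        exact decide_eq_false (by omega)
    obtain ⟨T1, hT1, hd1⟩ := tree_of_list (ev := (fev : Fm K r M G → ℕ × ℕ → Bool))
      ((List.finRange M).map fun j : Fin M => (⟨.bit i j.1, hiK, j.2⟩ : Fm K r M G)) ({i} ×ˢ range N)
      ⟨(i, 0), Finset.mem_product.2 ⟨Finset.mem_singleton_self _, Finset.mem_range.2 (by omega)⟩⟩ (by
        intro x hx y hy hxy
        rw [Finset.mem_product, Finset.mem_singleton, Finset.mem_range] at hx hy
        have h2 : x.2 ≠ y.2 := fun h => hxy (Prod.ext (hx.1.trans hy.1.symm) h)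
        obtain ⟨j, hj, hb⟩ := bits_sep (hx.2.trans_le hM) (hy.2.trans_le hM) h2
        refine ⟨⟨.bit i j, hiK, hj⟩, List.mem_map.2 ⟨⟨j, hj⟩, List.mem_finRange _, rfl⟩, ?_⟩
        show (decide (x.1 = i) && x.2.testBit j) ≠ (decide (y.1 = i) && y.2.testBit j)
        rw [decide_eq_true hx.1, decide_eq_true hy.1, Bool.true_and, Bool.true_and]
        exact hb)
    rw [List.length_map, List.length_finRange] at hd1
    have hc1 := cost_le_of_depth hd1
    rw [Finset.card_product, Finset.card_singleton, Finset.card_range, one_mul] at hc1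
    refine ⟨.node k0 T1 T', ⟨?_, ?_, ?_⟩, ?_⟩
    · unfold Splits
      rw [hp1, hp2]
      exact ⟨⟨(i, 0), Finset.mem_product.2 ⟨Finset.mem_singleton_self _, Finset.mem_range.2 (by omega)⟩⟩,
        ⟨(K, 0), mem_rest.2 (Or.inr ⟨rfl, by omega⟩)⟩⟩
    · rw [hp1]; exact hT1
    · rw [hp2]; exact hT'
    · rw [cost_node, hp1, hp2, rest_card]
      have h3 : K - i = d + 1 := by omega
      rw [h3]
      nlinarith

/-- the lower bound for the instances -/
theorem lower_inst {K N r M : ℕ} (hK : 4 ≤ K) (hN : 1 ≤ N) (hr : 1 ≤ r) (hM : N ≤ 2 ^ M) :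
    ∃ (m : ℕ) (X : Finset (Fin m → Bool)) (t : DTree (Fin m)), X.card = K * N + r ∧ IsGreedy coord t X ∧
      fK K N ≤ (cost coord t X : ℝ) ∧
      2 * opt coord X ≤ N * (K * (K + 1)) + 2 * (r * K) + 2 * (K * (N * M)) + 2 * (r * r) := by
  obtain ⟨F, hF, H⟩ := greedy_block (K := K) (r := r) (M := M) hK N 0
  have hrest : blk K 0 N ∪ ({K} ×ˢ range r) = rest K N r 0 := by
    ext p
    rw [Finset.mem_union, mem_blk, mem_rest, Finset.mem_product, Finset.mem_singleton, Finset.mem_range]
    omega
  obtain ⟨t, ht, hct⟩ := H F ({K} ×ˢ range r) (Finset.Subset.refl _) (by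
    intro p hp
    rw [Finset.mem_product, Finset.mem_singleton, Finset.mem_range] at hp
    exact hp) (fun g hg => Or.inl hg) hN (by omega)
  rw [hrest] at ht hct
  obtain ⟨T, hT, hcT⟩ := opt_tree (K := K) (r := r) (M := M) (G := F) hN hr hM K 0 (by omega)
  have := fam_finite K r M F
  obtain ⟨m, X, t', hX, ht', hc', ho⟩ := to_vectors (ev := (fev : Fm K r M F → ℕ × ℕ → Bool)) (by
    intro x hx y hy hxy
    apply fam_sep _ _ hxy
    · rcases mem_rest.1 hx with hx | hx
      · exact Or.inl ⟨hx.1.2, by omega⟩
      · exact Or.inr hx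
    · rcases mem_rest.1 hy with hy | hy
      · exact Or.inl ⟨hy.1.2, by omega⟩
      · exact Or.inr hy) ht hT
  refine ⟨m, X, t', ?_, ht', by rw [hc']; exact hct, by omega⟩
  rw [hX, rest_card, Nat.sub_zero]

end Pool.Agent.Helper35.GT
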