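import Pool.Agent.Helper35.GT.Upper
import Pool.Agent.Helper35.GT.Lower

/-!
# Greedy decision trees: the asymptotic form of the lower bound, and the limit
-/

set_option autoImplicit false

open Finset Filter Topology

namespace Pool.Agent.Helper35.GT

theorem card_le_cost {τ α : Type} {ev : τ → α → Bool} {T : DTree τ} {S : Finset α} (h : IsTree ev T S)
    (h2 : 2 ≤ S.card) : S.card ≤ cost ev T S := by
  rcases T with _ | ⟨k, l, r⟩
  · have h1 : S.card = 1 := h
    omega
  · rw [cost_node]
    omega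

theorem opt_pos {τ α : Type} {ev : τ → α → Bool} {T : DTree τ} {S : Finset α} (h : IsTree ev T S)
    (h2 : 2 ≤ S.card) : 0 < opt ev S := by
  obtain ⟨T', h', hc⟩ := opt_attained h
  rw [← hc]
  have := card_le_cost h' h2
  omega

theorem rho_eq (n : ℕ) : rho n = sSup (ratios n) := rfl

theorem ratios_le {n : ℕ} {C : ℝ} (hC : 0 ≤ C) (h : ∀ (m : ℕ) (X : Finset (Fin m → Bool)) (t T : DTree (Fin m)),
    X.card = n → IsGreedy coord t X → IsTree coord T X → (cost coord t X : ℝ) ≤ C * cost coord T X) :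
    ∀ q ∈ ratios n, q ≤ C := by
  rintro q ⟨m, X, t, hX, ht, rfl⟩
  obtain ⟨T, hT, hc⟩ := opt_attained ht.isTree
  have h1 := h m X t T hX ht hT
  rw [hc] at h1
  rcases (Nat.cast_nonneg (α := ℝ) (opt coord X)).eq_or_lt with h0 | h0
  · rw [← h0, div_zero]
    exact hC
  · rw [div_le_iff₀ h0]
    exact h1

theorem ratios_bdd (n : ℕ) : BddAbove (ratios n) := by
  have hT0 : 2 * ((2 : ℕ) : ℝ) * Real.log n ≤ Real.exp (4 * Real.log n) := by
    have := Real.add_one_le_exp (4 * Real.log n)
    push_cast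
    linarith
  have hl : 0 ≤ Real.log n := Real.log_natCast_nonneg n
  refine ⟨_, ratios_le (C := 3 * Nat.log 2 n + 3 ^ 2 / (3 - 2) * (4 * Real.log n + 2) + 2 * (2 : ℕ) + 1 +
      16 * Nat.log 2 n) (by positivity) ?_⟩
  intro m X t T hX ht hT
  exact sharp (Q := 2) (QB := 2) (A := 3) (T0 := 4 * Real.log n) le_rfl le_rfl (by norm_num) hT0 hT ht hX

theorem real_lb {K N r M x y L l w : ℝ} (hl : 1 ≤ l) (hK : l ≤ K) (hN : 4 * l ≤ N) (hr0 : 0 ≤ r)
    (hr : r ≤ K) (hM0 : 0 ≤ M) (hMK : 2 * M * l ≤ 6 * K) (hx : L - 3 * w ≤ x) (hLw : 0 ≤ L - 3 * w)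
    (hy0 : 0 < y) (hy : y ≤ w) :
    2 * (L - 3 * w) / ((1 + 1 / l) * (1 + 8 / l) * w) ≤
      2 * (K / ((1 / K) * (1 + 1 / K) * y) * (N * x)) /
        (N * (K * (K + 1)) + 2 * (r * K) + 2 * (K * (N * M)) + 2 * (r * r)) := by
  have hl0 : 0 < l := by linarith
  have hK0 : 0 < K := by linarith
  have hN0 : 0 < N := by linarith
  have hw0 : 0 < w := by linarith
  set D := N * (K * (K + 1)) + 2 * (r * K) + 2 * (K * (N * M)) + 2 * (r * r) with hD
  have hD0 : 0 < D := by positivity
  have hDle : D ≤ K ^ 2 * N * (1 + 8 / l) := by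
    have h1 : r * K ≤ K * K := mul_le_mul_of_nonneg_right hr hK0.le
    have h2 : r * r ≤ K * K := mul_le_mul hr hr hr0 hK0.le
    have h3 : K * N ≤ K ^ 2 * N * (1 / l) := by
      have : K * N = K ^ 2 * N * (1 / K) := by field_simp
      rw [this]
      apply mul_le_mul_of_nonneg_left _ (by positivity)
      exact one_div_le_one_div_of_le hl0 hK
    have h4 : 4 * (K * K) ≤ K ^ 2 * N * (1 / l) := by
      rw [mul_one_div, le_div_iff₀ hl0]
      nlinarith [mul_le_mul_of_nonneg_left hN (by positivity : 0 ≤ K * K)]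
    have h5 : 2 * (K * (N * M)) ≤ K ^ 2 * N * (6 / l) := by
      rw [mul_div_assoc', le_div_iff₀ hl0]
      nlinarith [mul_le_mul_of_nonneg_left hMK (by positivity : 0 ≤ K * N)]
    have h6 : K ^ 2 * N * (1 + 8 / l) = K ^ 2 * N + K ^ 2 * N * (1 / l) + K ^ 2 * N * (1 / l) +
        K ^ 2 * N * (6 / l) := by ring
    rw [h6, hD]
    nlinarith
  have e1 : 2 * (K / ((1 / K) * (1 + 1 / K) * y) * (N * x)) / D = 2 * (K ^ 2 * N * x) / ((1 + 1 / K) * y * D) := by
    field_simp
  rw [e1, div_le_div_iff₀ (by positivity) (by positivity)]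
  have hx0 : 0 ≤ x := hLw.trans hx
  have h7 : (1 + 1 / K) * y * D ≤ (1 + 1 / l) * w * (K ^ 2 * N * (1 + 8 / l)) := by
    apply mul_le_mul _ hDle hD0.le (by positivity)
    apply mul_le_mul _ hy hy0.le (by positivity)
    have := one_div_le_one_div_of_le hl0 hK
    linarith
  calc 2 * (L - 3 * w) * ((1 + 1 / K) * y * D) ≤ 2 * x * ((1 + 1 / l) * w * (K ^ 2 * N * (1 + 8 / l))) := by
        apply mul_le_mul (by linarith) h7 (by positivity) (by linarith)
    _ = 2 * (K ^ 2 * N * x) * ((1 + 1 / l) * (1 + 8 / l) * w) := by ring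

/-- `w = l + log l + 2` -/
noncomputable def ww (l : ℝ) : ℝ := l + Real.log l + 2

theorem tendsto_ww : Tendsto (fun l : ℝ => l / ww l) atTop (𝓝 1) := by
  have h1 : Tendsto (fun l : ℝ => Real.log l / l) atTop (𝓝 0) := by
    have := Real.isLittleO_log_id_atTop.tendsto_div_nhds_zero
    simpa using this
  have h2 : Tendsto (fun l : ℝ => 2 / l) atTop (𝓝 0) := tendsto_const_nhds.div_atTop tendsto_id
  have h3 : Tendsto (fun l : ℝ => (1 + Real.log l / l + 2 / l)⁻¹) atTop (𝓝 1) := by
    have := ((tendsto_const_nhds (x := (1 : ℝ)) (f := atTop)).add h1).add h2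
    simp only [add_zero] at this
    have := this.inv₀ one_ne_zero
    simpa using this
  refine h3.congr' ?_
  filter_upwards [eventually_gt_atTop 0] with l hl
  have : 1 + Real.log l / l + 2 / l = ww l / l := by
    unfold ww
    field_simp
  rw [this, inv_div]

theorem tendsto_ww_exp : Tendsto (fun l : ℝ => ww l * Real.exp (-l)) atTop (𝓝 0) := by
  have h1 := tendsto_ww.inv₀ one_ne_zero
  have h2 := Real.tendsto_pow_mul_exp_neg_atTop_nhds_zero 1
  have h3 := h1.mul h2
  simp only [mul_zero] at h3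
  refine h3.congr' ?_
  filter_upwards [eventually_gt_atTop 0] with l hl
  rw [inv_div, pow_one]
  field_simp

theorem tendsto_g2 : Tendsto (fun l : ℝ => 2 * (1 - 3 * (ww l * Real.exp (-l))) * (l / ww l) /
    ((1 + 1 / l) * (1 + 8 / l))) atTop (𝓝 2) := by
  have h1 : Tendsto (fun l : ℝ => 1 / l) atTop (𝓝 0) := tendsto_const_nhds.div_atTop tendsto_id
  have h8 : Tendsto (fun l : ℝ => 8 / l) atTop (𝓝 0) := tendsto_const_nhds.div_atTop tendsto_id
  have e1 := (((tendsto_ww_exp.const_mul 3).const_sub 1).const_mul 2).mul tendsto_ww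
  have e2 := (h1.const_add 1).mul (h8.const_add 1)
  have e3 := e1.div e2 (by norm_num)
  have e4 : (2 * (1 - 3 * (0 : ℝ)) * 1) / ((1 + 0) * (1 + 0)) = 2 := by norm_num
  rw [e4] at e3
  exact e3

theorem lower {ε : ℝ} (hε : 0 < ε) :
    ∀ᶠ n : ℕ in atTop, 2 - ε ≤ rho n * Real.log (Real.log n) / Real.log n := by
  have hLog : Tendsto (fun n : ℕ => Real.log n) atTop atTop :=
    Real.tendsto_log_atTop.comp tendsto_natCast_atTop_atTop
  have h3 := Real.tendsto_pow_mul_exp_neg_atTop_nhds_zero 3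
  filter_upwards [tendsto_loglog.eventually (tendsto_g2.eventually (lt_mem_nhds (show 2 - ε < 2 by linarith))),
    tendsto_loglog.eventually (tendsto_ww_exp.eventually (gt_mem_nhds (show (0 : ℝ) < 1 / 3 by norm_num))),
    tendsto_loglog.eventually (eventually_ge_atTop 4),
    hLog.eventually (h3.eventually (gt_mem_nhds (show (0 : ℝ) < 1 / 16 by norm_num))),
    eventually_ge_atTop 2] with n hg hw hl4 hcube hn2
  set L := Real.log n with hL
  set l := Real.log L with hl
  have hL0 : 0 < L := by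
    by_contra hlt
    push Not at hlt
    have hL1 : 0 ≤ L := Real.log_natCast_nonneg n
    have : L = 0 := le_antisymm hlt hL1
    rw [hl, this, Real.log_zero] at hl4
    norm_num at hl4
  have hLe : L = Real.exp l := (Real.exp_log hL0).symm
  have hl0 : 0 < l := by linarith
  have hlL : l + 1 ≤ L := by
    rw [hLe]
    exact Real.add_one_le_exp l
  have hn0 : (0 : ℝ) < n := by
    have : 0 < n := by omega
    exact_mod_cast this
  have hne : (n : ℝ) = Real.exp L := (Real.exp_log hn0).symm
  have hexpl : Real.exp (-l) * L = 1 := by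
    rw [hLe, ← Real.exp_add]
    simp
  have hlogl : 0 ≤ Real.log l := Real.log_nonneg (by linarith)
  have hww0 : 0 < ww l := by unfold ww; linarith
  have hw' : 3 * ww l ≤ L := by
    have := mul_le_mul_of_nonneg_right hw.le hL0.le
    rw [mul_assoc, hexpl] at this
    linarith
  have hcube' : 16 * L ^ 3 ≤ n := by
    rw [hne]
    have := mul_le_mul_of_nonneg_right hcube.le (Real.exp_pos L).le
    rw [mul_assoc, ← Real.exp_add] at this
    simp only [neg_add_cancel, Real.exp_zero, mul_one] at this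
    linarith
  set K := ⌈L * l⌉₊ with hK
  have hLl : 20 ≤ L * l := by nlinarith
  have hKge : L * l ≤ K := Nat.le_ceil _
  have hKle : (K : ℝ) ≤ 2 * (L * l) := by
    have := (Nat.ceil_lt_add_one (by positivity : 0 ≤ L * l)).le
    rw [← hK] at this
    linarith
  have hK4 : 4 ≤ K := by
    have : (4 : ℝ) ≤ K := by linarith
    exact_mod_cast this
  have hK0 : (0 : ℝ) < K := by linarith
  set M := ⌈2 * L⌉₊ with hM
  have hMge : 2 * L ≤ M := Nat.le_ceil _
  have hMle : (M : ℝ) ≤ 3 * L := by
    have := (Nat.ceil_lt_add_one (by positivity : 0 ≤ 2 * L)).le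
    rw [← hM] at this
    linarith
  set N := (n - 1) / K with hN
  set r := (n - 1) % K + 1 with hr
  have hdm := Nat.div_add_mod (n - 1) K
  have hcard : K * N + r = n := by
    rw [hr, hN]
    omega
  have hrK : r ≤ K := by
    have := Nat.mod_lt (n - 1) (show 0 < K by omega)
    omega
  have hNr : (n : ℝ) / K ≤ N + 1 := by
    rw [div_le_iff₀ hK0]
    have h1 : (n : ℝ) = K * N + r := by exact_mod_cast hcard.symm
    have h2 : (r : ℝ) ≤ K := by exact_mod_cast hrK
    rw [h1]
    linarith
  have hnK : 8 * L ≤ (n : ℝ) / K := by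
    rw [le_div_iff₀ hK0]
    have h1 : L * l ≤ L * L := mul_le_mul_of_nonneg_left (by linarith) hL0.le
    calc 8 * L * K ≤ 8 * L * (2 * (L * L)) := by
          apply mul_le_mul_of_nonneg_left _ (by positivity)
          linarith
      _ = 16 * L ^ 3 := by ring
      _ ≤ n := hcube'
  have hN2 : (n : ℝ) / K / 2 ≤ N := by linarith
  have hN4 : 4 * l ≤ (N : ℝ) := by linarith
  have hN1 : 1 ≤ N := by
    have : (1 : ℝ) ≤ N := by linarith
    exact_mod_cast this
  have hl2 : (1 : ℝ) / 2 ≤ Real.log 2 := by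
    have := Real.log_two_gt_d9
    linarith
  have hl2' : Real.log 2 ≤ 1 := by
    have := Real.log_two_lt_d9
    linarith
  have hNM : N ≤ 2 ^ M := by
    have h1 : n ≤ 2 ^ M := by
      have h2 : (n : ℝ) ≤ (2 : ℝ) ^ M := by
        rw [← Real.log_le_log_iff hn0 (by positivity), Real.log_pow]
        rw [← hL]
        have : 2 * L * (1 / 2) ≤ M * Real.log 2 := mul_le_mul hMge hl2 (by norm_num) (Nat.cast_nonneg _)
        linarith
      exact_mod_cast h2
    have h2 : N ≤ n - 1 := Nat.div_le_self _ _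
    omega
  obtain ⟨m, X, t, hX, ht, hc, ho⟩ := lower_inst hK4 hN1 (show 1 ≤ r by omega) hNM
  have hX2 : 2 ≤ X.card := by rw [hX, hcard]; exact hn2
  have hopt : (0 : ℝ) < opt coord X := by exact_mod_cast opt_pos ht.isTree hX2
  have hmem : (cost coord t X : ℝ) / (opt coord X : ℝ) ∈ ratios n :=
    ⟨m, X, t, by rw [hX, hcard], ht, rfl⟩
  have hrho : (cost coord t X : ℝ) / (opt coord X : ℝ) ≤ rho n := le_csSup (ratios_bdd n) hmem
  have ho' : 2 * (opt coord X : ℝ) ≤ N * (K * (K + 1)) + 2 * (r * K) + 2 * (K * (N * M)) + 2 * (r * r) := by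
    exact_mod_cast ho
  have hlogK : Real.log K ≤ l + Real.log l + Real.log 2 := by
    calc Real.log K ≤ Real.log (2 * (L * l)) := Real.log_le_log hK0 hKle
      _ = l + Real.log l + Real.log 2 := by
        rw [Real.log_mul (by norm_num) (by positivity), Real.log_mul hL0.ne' hl0.ne', ← hl]
        ring
  have hlogK0 : 0 ≤ Real.log K := Real.log_natCast_nonneg K
  have hlogN : L - Real.log K - Real.log 2 ≤ Real.log N := by
    have h1 : Real.log ((n : ℝ) / K / 2) ≤ Real.log N := Real.log_le_log (by positivity) hN2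
    rw [Real.log_div (by positivity) (by norm_num), Real.log_div hn0.ne' hK0.ne', ← hL] at h1
    exact h1
  have hreal := real_lb (K := (K : ℝ)) (N := (N : ℝ)) (r := (r : ℝ)) (M := (M : ℝ))
    (x := Real.log N - 2 * Real.log K) (y := Real.log K + 1) (L := L) (l := l) (w := ww l)
    (by linarith) (by nlinarith) hN4 (Nat.cast_nonneg _) (by exact_mod_cast hrK) (Nat.cast_nonneg _)
    (by nlinarith) (by unfold ww; linarith) (by linarith) (by linarith) (by unfold ww; linarith)
  have hfK : fK K N = K / ((1 / K) * (1 + 1 / K) * (Real.log K + 1)) * (N * (Real.log N - 2 * Real.log K)) := rfl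
  rw [← hfK] at hreal
  set D := (N : ℝ) * (K * (K + 1)) + 2 * (r * K) + 2 * (K * (N * M)) + 2 * (r * r) with hD
  have hD0 : 0 < D := by linarith
  have hq : 2 * fK K N / D ≤ (cost coord t X : ℝ) / (opt coord X : ℝ) := by
    rw [div_le_div_iff₀ hD0 hopt]
    have hc0 : (0 : ℝ) ≤ cost coord t X := Nat.cast_nonneg _
    have h1 := mul_le_mul_of_nonneg_right hc hopt.le
    have h2 := mul_le_mul_of_nonneg_left ho' hc0
    linarith
  have hfin := hreal.trans (hq.trans hrho)
  have hfin2 := mul_le_mul_of_nonneg_right hfin (by positivity : 0 ≤ l / L)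
  have e : 2 * (L - 3 * ww l) / ((1 + 1 / l) * (1 + 8 / l) * ww l) * (l / L) =
      2 * (1 - 3 * (ww l * Real.exp (-l))) * (l / ww l) / ((1 + 1 / l) * (1 + 8 / l)) := by
    have h1 : (L - 3 * ww l) / L = 1 - 3 * (ww l * Real.exp (-l)) := by
      rw [div_eq_iff hL0.ne', sub_mul, mul_assoc, mul_assoc, hexpl]
      ring
    rw [← h1]
    have : (1 + 1 / l) * (1 + 8 / l) ≠ 0 := by positivity
    field_simp
  rw [e] at hfin2
  calc 2 - ε ≤ 2 * (1 - 3 * (ww l * Real.exp (-l))) * (l / ww l) / ((1 + 1 / l) * (1 + 8 / l)) := hg.le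
    _ ≤ rho n * (l / L) := hfin2
    _ = rho n * l / L := by ring

theorem rho_upper {ε : ℝ} (hε : 0 < ε) :
    ∀ᶠ n : ℕ in atTop, rho n * Real.log (Real.log n) / Real.log n ≤ 2 + ε := by
  have hLog : Tendsto (fun n : ℕ => Real.log n) atTop atTop :=
    Real.tendsto_log_atTop.comp tendsto_natCast_atTop_atTop
  filter_upwards [upper hε, tendsto_loglog.eventually (eventually_gt_atTop 0),
    hLog.eventually (eventually_gt_atTop 0)] with n hn hl hL
  have h1 : rho n ≤ (2 + ε) * Real.log n / Real.log (Real.log n) := by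
    rw [rho_eq]
    apply Real.sSup_le _ (by positivity)
    apply ratios_le (by positivity)
    intro m X t T hX ht hT
    have := hn (Fin m) (Fin m → Bool) coord X t T hX ht hT
    rw [div_mul_eq_mul_div, le_div_iff₀ hl]
    exact this
  rw [le_div_iff₀ hl] at h1
  rw [div_le_iff₀ hL]
  exact h1

/-- the greedy algorithm is not worst possible -/
theorem limit_zero : Tendsto (fun n : ℕ => rho n / Real.log n) atTop (𝓝 0) := by
  have h1 : Tendsto (fun n : ℕ => (2 + 1) / Real.log (Real.log n)) atTop (𝓝 0) :=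
    tendsto_const_nhds.div_atTop tendsto_loglog
  have hLog : Tendsto (fun n : ℕ => Real.log n) atTop atTop :=
    Real.tendsto_log_atTop.comp tendsto_natCast_atTop_atTop
  have h0 : ∀ n, 0 ≤ rho n := by
    intro n
    rw [rho_eq]
    apply Real.sSup_nonneg
    rintro q ⟨m, X, t, _, _, rfl⟩
    positivity
  refine tendsto_of_tendsto_of_tendsto_of_le_of_le' tendsto_const_nhds h1 ?_ ?_
  · filter_upwards [hLog.eventually (eventually_gt_atTop 0)] with n hL
    exact div_nonneg (h0 n) hL.le
  · filter_upwards [rho_upper (show (0 : ℝ) < 1 by norm_num), tendsto_loglog.eventually (eventually_gt_atTop 0),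
      hLog.eventually (eventually_gt_atTop 0)] with n hn hl hL
    rw [div_le_div_iff₀ hL hl]
    rwa [div_le_iff₀ hL] at hn

/-- the limit -/
theorem limit : Tendsto (fun n : ℕ => rho n * Real.log (Real.log n) / Real.log n) atTop (𝓝 2) := by
  apply tendsto_order.2
  constructor
  · intro a ha
    filter_upwards [lower (show 0 < (2 - a) / 2 by linarith)] with n hn
    linarith
  · intro b hb
    filter_upwards [rho_upper (show 0 < (b - 2) / 2 by linarith)] with n hn
    linarith

end Pool.Agent.Helper35.GT
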