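import Pool.Agent.Helper35.GT.Rd

/-!
# Greedy decision trees: the crude bound
-/

set_option autoImplicit false

open Finset

namespace Pool.Agent.Helper35.GT

variable {τ α : Type} {ev : τ → α → Bool}

/-- The number of elements of `S` of restricted depth at least `2 ^ j`. -/
noncomputable def bt (ev : τ → α → Bool) (T : DTree τ) (S : Finset α) (j : ℕ) : ℕ :=
  (S.filter fun x => 2 ^ j ≤ rd ev T S x).card

/-- The crude potential. -/
noncomputable def gam (ev : τ → α → Bool) (T : DTree τ) (Q J : ℕ) (S : Finset α) : ℕ :=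
  ∑ j ∈ range J, 2 ^ j * (Nat.log Q S.card * min S.card (2 * bt ev T S j))

theorem bt_part (T : DTree τ) (S : Finset α) (k : τ) (j : ℕ) :
    bt ev T (part ev S k true) j + bt ev T (part ev S k false) j ≤ bt ev T S j := by
  unfold bt
  rw [Finset.card_filter, Finset.card_filter, Finset.card_filter, sum_part (ev := ev) S k]
  apply Nat.add_le_add
  · apply Finset.sum_le_sum
    intro x _
    have := rd_mono (ev := ev) (T := T) (part_sub (ev := ev) S k true) x
    split_ifs <;> omega
  · apply Finset.sum_le_sum
    intro x _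
    have := rd_mono (ev := ev) (T := T) (part_sub (ev := ev) S k false) x
    split_ifs <;> omega

theorem sum_two_pow_le (J d : ℕ) : ∑ j ∈ range J, 2 ^ j * (if 2 ^ j ≤ d then 1 else 0) ≤ 2 * d := by
  have h : ∀ J, ∑ j ∈ range J, 2 ^ j * (if 2 ^ j ≤ d then 1 else 0) ≤ 2 * d ∧
      ∑ j ∈ range J, 2 ^ j * (if 2 ^ j ≤ d then 1 else 0) ≤ 2 ^ J - 1 := by
    intro J
    induction J with
    | zero => simp
    | succ J ih =>
      rw [Finset.sum_range_succ, pow_succ]
      have hp : 1 ≤ 2 ^ J := Nat.one_le_two_pow
      by_cases hd : 2 ^ J ≤ d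
      · rw [if_pos hd]
        constructor <;> omega
      · rw [if_neg hd]
        constructor <;> omega
  exact (h J).1

theorem gam_le (T : DTree τ) (Q J : ℕ) (S : Finset α) :
    gam ev T Q J S ≤ 4 * (Nat.log Q S.card * mu ev T S) := by
  have h1 : gam ev T Q J S ≤ ∑ j ∈ range J, 2 * (Nat.log Q S.card * (2 ^ j * bt ev T S j)) := by
    unfold gam
    apply Finset.sum_le_sum
    intro j _
    have : min S.card (2 * bt ev T S j) ≤ 2 * bt ev T S j := min_le_right _ _
    calc 2 ^ j * (Nat.log Q S.card * min S.card (2 * bt ev T S j))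
        ≤ 2 ^ j * (Nat.log Q S.card * (2 * bt ev T S j)) :=
          Nat.mul_le_mul_left _ (Nat.mul_le_mul_left _ this)
      _ = 2 * (Nat.log Q S.card * (2 ^ j * bt ev T S j)) := by ring
  refine h1.trans ?_
  rw [← Finset.mul_sum, ← Finset.mul_sum]
  have h2 : ∑ j ∈ range J, 2 ^ j * bt ev T S j ≤ 2 * mu ev T S := by
    unfold bt mu
    simp_rw [Finset.card_filter, Finset.mul_sum]
    rw [Finset.sum_comm]
    apply Finset.sum_le_sum
    intro x _
    exact sum_two_pow_le J _
  calc 2 * (Nat.log Q S.card * ∑ j ∈ range J, 2 ^ j * bt ev T S j)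
      ≤ 2 * (Nat.log Q S.card * (2 * mu ev T S)) := Nat.mul_le_mul_left _ (Nat.mul_le_mul_left _ h2)
    _ = 4 * (Nat.log Q S.card * mu ev T S) := by ring

theorem gam_part (T : DTree τ) (Q J : ℕ) (S : Finset α) (k : τ) :
    gam ev T Q J (part ev S k true) + gam ev T Q J (part ev S k false) ≤ gam ev T Q J S := by
  unfold gam
  rw [← Finset.sum_add_distrib]
  apply Finset.sum_le_sum
  intro j _
  rw [← Nat.mul_add]
  apply Nat.mul_le_mul_left
  have hb := bt_part (ev := ev) T S k j
  have hc := part_card (ev := ev) S k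
  have l1 : Nat.log Q (part ev S k true).card ≤ Nat.log Q S.card :=
    Nat.log_mono_right (Finset.card_le_card (part_sub S k true))
  have l2 : Nat.log Q (part ev S k false).card ≤ Nat.log Q S.card :=
    Nat.log_mono_right (Finset.card_le_card (part_sub S k false))
  have hm : min (part ev S k true).card (2 * bt ev T (part ev S k true) j) +
      min (part ev S k false).card (2 * bt ev T (part ev S k false) j) ≤ min S.card (2 * bt ev T S j) := by
    omega
  calc Nat.log Q (part ev S k true).card * min (part ev S k true).card (2 * bt ev T (part ev S k true) j) +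
      Nat.log Q (part ev S k false).card * min (part ev S k false).card (2 * bt ev T (part ev S k false) j)
      ≤ Nat.log Q S.card * min (part ev S k true).card (2 * bt ev T (part ev S k true) j) +
        Nat.log Q S.card * min (part ev S k false).card (2 * bt ev T (part ev S k false) j) :=
        Nat.add_le_add (Nat.mul_le_mul_right _ l1) (Nat.mul_le_mul_right _ l2)
    _ = Nat.log Q S.card * (min (part ev S k true).card (2 * bt ev T (part ev S k true) j) +
        min (part ev S k false).card (2 * bt ev T (part ev S k false) j)) := by ring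
    _ ≤ _ := Nat.mul_le_mul_left _ hm

/-- the sum of the scales at which most elements are deep -/
theorem scale_sum {T : DTree τ} {S : Finset α} {a J : ℕ} (ha : 1 ≤ a) (hT : Sep ev T S)
    (hmax : ∀ k, mn ev S k ≤ a) (hS : 2 ≤ S.card) (hJ : ∀ x ∈ S, rd ev T S x < 2 ^ J) :
    S.card ≤ 4 * (a * ∑ j ∈ range J, if S.card ≤ 2 * bt ev T S j then 2 ^ j else 0) := by
  classical
  have hex : ∃ j, 2 * bt ev T S j < S.card := by
    refine ⟨J, ?_⟩
    have : bt ev T S J = 0 := by
      unfold bt
      rw [Finset.card_eq_zero, Finset.filter_eq_empty_iff]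
      intro x hx
      have := hJ x hx
      omega
    omega
  have hj0 := Nat.find_spec hex
  have hjm : ∀ i < Nat.find hex, ¬ 2 * bt ev T S i < S.card := fun i hi => Nat.find_min hex hi
  have hjJ : Nat.find hex ≤ J := by
    apply Nat.find_min'
    have : bt ev T S J = 0 := by
      unfold bt
      rw [Finset.card_eq_zero, Finset.filter_eq_empty_iff]
      intro x hx
      have := hJ x hx
      omega
    omega
  set i := Nat.find hex with hi
  have hi1 : 1 ≤ i := by
    by_contra hlt
    have h0 : i = 0 := by omega
    rw [h0] at hj0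
    have : bt ev T S 0 = S.card := by
      unfold bt
      congr 1
      rw [Finset.filter_eq_self]
      intro x hx
      have := rd_pos hT hS hx
      simpa using this
    omega
  have hcount := rd_count hT hmax (2 ^ i - 1)
  have hp : 2 ≤ 2 ^ i := by
    calc 2 = 2 ^ 1 := by norm_num
      _ ≤ 2 ^ i := Nat.pow_le_pow_right (by norm_num) hi1
  have hsplit : bt ev T S i + (S.filter fun x => rd ev T S x ≤ 2 ^ i - 1).card = S.card := by
    unfold bt
    have h1 := Finset.card_filter_add_card_filter_not (s := S) (fun x => 2 ^ i ≤ rd ev T S x)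
    rw [← h1]
    congr 2
    apply Finset.filter_congr
    intro x _
    omega
  have hsum : ∑ j ∈ range i, 2 ^ j ≤ ∑ j ∈ range J, if S.card ≤ 2 * bt ev T S j then 2 ^ j else 0 := by
    calc ∑ j ∈ range i, 2 ^ j = ∑ j ∈ range i, (if S.card ≤ 2 * bt ev T S j then 2 ^ j else 0) := by
          apply Finset.sum_congr rfl
          intro j hj
          have := hjm j (Finset.mem_range.1 hj)
          rw [if_pos (by omega)]
      _ ≤ _ := Finset.sum_le_sum_of_subset (Finset.range_subset_range.2 hjJ)
  have hgeo : ∑ j ∈ range i, 2 ^ j = 2 ^ i - 1 := by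
    have := Nat.geomSum_eq (m := 2) (le_refl 2) i
    simpa using this
  rw [hgeo] at hsum
  have h2 : a * (2 ^ i - 1) ≤ a * ∑ j ∈ range J, (if S.card ≤ 2 * bt ev T S j then 2 ^ j else 0) :=
    Nat.mul_le_mul_left a hsum
  have h3 : 1 * 1 ≤ a * (2 ^ i - 1) := Nat.mul_le_mul ha (by omega)
  omega

/-- the potential drops by `a` times the sum of the scales at an unbalanced node; `kl` is the side of the light part -/
theorem gam_drop (T : DTree τ) {Q J : ℕ} (S : Finset α) (k : τ) (kl : Bool)
    (hlog : Nat.log Q (part ev S k kl).card + 1 ≤ Nat.log Q S.card) :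
    gam ev T Q J (part ev S k kl) + gam ev T Q J (part ev S k !kl) +
      (part ev S k kl).card * ∑ j ∈ range J, (if S.card ≤ 2 * bt ev T S j then 2 ^ j else 0) ≤
      gam ev T Q J S := by
  unfold gam
  rw [← Finset.sum_add_distrib, Finset.mul_sum, ← Finset.sum_add_distrib]
  apply Finset.sum_le_sum
  intro j _
  have hb : bt ev T (part ev S k kl) j + bt ev T (part ev S k !kl) j ≤ bt ev T S j := by
    have := bt_part (ev := ev) T S k j
    rcases kl with _ | _
    · rw [Bool.not_false]; omega
    · rw [Bool.not_true]; exact this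
  have hc : (part ev S k kl).card + (part ev S k !kl).card = S.card := by
    have := part_card (ev := ev) S k
    rcases kl with _ | _
    · rw [Bool.not_false]; omega
    · rw [Bool.not_true]; exact this
  have l2 : Nat.log Q (part ev S k !kl).card ≤ Nat.log Q S.card :=
    Nat.log_mono_right (Finset.card_le_card (part_sub S k _))
  set p := (part ev S k kl).card
  set q := (part ev S k !kl).card
  set s := S.card
  set b1 := bt ev T (part ev S k kl) j
  set b2 := bt ev T (part ev S k !kl) j
  set b := bt ev T S j
  set x := Nat.log Q p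
  set y := Nat.log Q q
  set z := Nat.log Q s
  by_cases hs : s ≤ 2 * b
  · rw [if_pos hs]
    have e1 : min s (2 * b) = s := min_eq_left hs
    rw [e1]
    have e2 : min p (2 * b1) ≤ p := min_le_left _ _
    have e3 : min q (2 * b2) ≤ q := min_le_left _ _
    have e4 : x * min p (2 * b1) + y * min q (2 * b2) + p ≤ z * s := by
      calc x * min p (2 * b1) + y * min q (2 * b2) + p ≤ x * p + z * q + p :=
            Nat.add_le_add_right (Nat.add_le_add (Nat.mul_le_mul_left _ e2) (Nat.mul_le_mul l2 e3)) _
        _ = (x + 1) * p + z * q := by ring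
        _ ≤ z * p + z * q := Nat.add_le_add_right (Nat.mul_le_mul_right _ hlog) _
        _ = z * s := by rw [← hc]; ring
    calc 2 ^ j * (x * min p (2 * b1)) + 2 ^ j * (y * min q (2 * b2)) + p * 2 ^ j
        = 2 ^ j * (x * min p (2 * b1) + y * min q (2 * b2) + p) := by ring
      _ ≤ 2 ^ j * (z * s) := Nat.mul_le_mul_left _ e4
  · rw [if_neg hs, Nat.mul_zero, Nat.add_zero, ← Nat.mul_add]
    apply Nat.mul_le_mul_left
    have hm : min p (2 * b1) + min q (2 * b2) ≤ min s (2 * b) := by omega
    calc x * min p (2 * b1) + y * min q (2 * b2) ≤ z * min p (2 * b1) + z * min q (2 * b2) :=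
          Nat.add_le_add (Nat.mul_le_mul_right _ (by omega)) (Nat.mul_le_mul_right _ l2)
      _ = z * (min p (2 * b1) + min q (2 * b2)) := by ring
      _ ≤ _ := Nat.mul_le_mul_left _ hm

/-- `x log x` -/
noncomputable def en (n : ℕ) : ℝ := (n : ℝ) * Real.log n

theorem en_nonneg (n : ℕ) : 0 ≤ en n := by
  unfold en
  exact mul_nonneg (Nat.cast_nonneg _) (Real.log_natCast_nonneg _)

/-- the entropy gain is at least half of the light part -/
theorem en_gain {a b : ℕ} (ha : 1 ≤ a) (hab : a ≤ b) : (a : ℝ) / 2 ≤ en (a + b) - en a - en b := by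
  unfold en
  have ha' : (1 : ℝ) ≤ a := by exact_mod_cast ha
  have hb' : (a : ℝ) ≤ b := by exact_mod_cast hab
  have h1 : Real.log 2 + Real.log a ≤ Real.log ((a + b : ℕ) : ℝ) := by
    rw [← Real.log_mul (by norm_num) (by linarith)]
    apply Real.log_le_log (by linarith)
    push_cast
    linarith
  have h2 : Real.log b ≤ Real.log ((a + b : ℕ) : ℝ) := by
    apply Real.log_le_log (by linarith)
    push_cast
    linarith
  have h3 : (1 : ℝ) / 2 ≤ Real.log 2 := by
    have := Real.log_two_gt_d9
    linarith
  have h4 : (a : ℝ) * (Real.log 2 + Real.log a) ≤ a * Real.log ((a + b : ℕ) : ℝ) :=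
    mul_le_mul_of_nonneg_left h1 (by linarith)
  have h5 : (b : ℝ) * Real.log b ≤ b * Real.log ((a + b : ℕ) : ℝ) :=
    mul_le_mul_of_nonneg_left h2 (by linarith)
  have h6 : (a : ℝ) * (1 / 2) ≤ a * Real.log 2 := mul_le_mul_of_nonneg_left h3 (by linarith)
  have h7 : ((a + b : ℕ) : ℝ) = a + b := by push_cast; ring
  have h8 : ((a + b : ℕ) : ℝ) * Real.log ((a + b : ℕ) : ℝ) =
      a * Real.log ((a + b : ℕ) : ℝ) + b * Real.log ((a + b : ℕ) : ℝ) := by
    rw [← add_mul, ← h7]
  rw [h8]
  linarith

theorem log_drop {Q a s : ℕ} (hQ : 2 ≤ Q) (ha : 1 ≤ a) (h : a * Q ≤ s) : Nat.log Q a + 1 ≤ Nat.log Q s := by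
  rw [← Nat.log_mul_base (by omega) (by omega)]
  exact Nat.log_mono_right h

/-- a normal form of the cost of an inner node of a greedy tree: `kl` is the side of the light part -/
theorem light {S : Finset α} {k : τ} (hs : Splits ev S k) : ∃ kl : Bool,
    (part ev S k kl).card = mn ev S k ∧ (part ev S k kl).card ≤ (part ev S k !kl).card := by
  unfold mn
  rcases le_total (part ev S k true).card (part ev S k false).card with h | h
  · exact ⟨true, (min_eq_left h).symm, h⟩
  · exact ⟨false, (min_eq_right h).symm, h⟩

theorem crude_aux {T : DTree τ} {Q J : ℕ} (hQ : 2 ≤ Q) {t : DTree τ} {S : Finset α} (hT : Sep ev T S)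
    (ht : IsGreedy ev t S) (hJ : ∀ x ∈ S, rd ev T S x < 2 ^ J) :
    (cost ev t S : ℝ) ≤ 2 * Q * en S.card + 4 * (gam ev T Q J S : ℝ) := by
  induction t generalizing S with
  | leaf =>
    rw [cost_leaf]
    have := en_nonneg S.card
    have h2 : (0 : ℝ) ≤ gam ev T Q J S := Nat.cast_nonneg _
    have h3 : (0 : ℝ) ≤ Q := Nat.cast_nonneg _
    push_cast
    positivity
  | node k l r ihl ihr =>
    obtain ⟨hs, hmin, hl, hr⟩ := ht
    have hmax := greedy_mn hs hmin
    have hc := part_card (ev := ev) S k
    have hp := Finset.card_pos.2 hs.1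
    have hq := Finset.card_pos.2 hs.2
    have h1 := ihl (hT.mono (part_sub S k true)) hl (fun x hx =>
      (rd_mono (part_sub S k true) x).trans_lt (hJ x (part_sub S k true hx)))
    have h2 := ihr (hT.mono (part_sub S k false)) hr (fun x hx =>
      (rd_mono (part_sub S k false) x).trans_lt (hJ x (part_sub S k false hx)))
    have hS : 2 ≤ S.card := by omega
    rw [cost_node]
    push_cast
    obtain ⟨kl, hkl, hle⟩ := light hs
    have ha : 1 ≤ (part ev S k kl).card := by rw [hkl]; exact mn_pos hs
    have hsum : ∀ F : Finset α → ℝ, F (part ev S k true) + F (part ev S k false) =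
        F (part ev S k kl) + F (part ev S k !kl) := by
      intro F
      rcases kl with _ | _
      · rw [Bool.not_false]; ring
      · rw [Bool.not_true]
    have hc' : (part ev S k kl).card + (part ev S k !kl).card = S.card := by
      rcases kl with _ | _
      · rw [Bool.not_false]; omega
      · rw [Bool.not_true]; exact hc
    have hen : en (part ev S k true).card + en (part ev S k false).card =
        en (part ev S k kl).card + en (part ev S k !kl).card := hsum fun A => en A.card
    have hgain := en_gain ha hle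
    rw [hc'] at hgain
    have hQ' : (2 : ℝ) ≤ Q := by exact_mod_cast hQ
    have hred : (cost ev l (part ev S k true) : ℝ) + cost ev r (part ev S k false) ≤
        2 * Q * (en (part ev S k true).card + en (part ev S k false).card) +
        4 * ((gam ev T Q J (part ev S k true) : ℝ) + gam ev T Q J (part ev S k false)) := by linarith
    by_cases hbal : (part ev S k kl).card * Q ≤ S.card
    · have hlog := log_drop hQ ha hbal
      have hg := gam_drop (ev := ev) T (J := J) S k kl hlog
      have hsc := scale_sum (ev := ev) ha hT (by rw [hkl]; exact hmax) hS hJ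
      have hg' : (gam ev T Q J (part ev S k true) : ℝ) + gam ev T Q J (part ev S k false) =
        (gam ev T Q J (part ev S k kl) : ℝ) + gam ev T Q J (part ev S k !kl) :=
        hsum fun A => (gam ev T Q J A : ℝ)
      have h3 : (S.card : ℝ) + 4 * ((gam ev T Q J (part ev S k kl) : ℝ) + gam ev T Q J (part ev S k !kl)) ≤
          4 * (gam ev T Q J S : ℝ) := by
        have : S.card + 4 * (gam ev T Q J (part ev S k kl) + gam ev T Q J (part ev S k !kl)) ≤
          4 * gam ev T Q J S := by omega
        exact_mod_cast this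
      have h4 : 0 ≤ en S.card - (en (part ev S k true).card + en (part ev S k false).card) := by
        rw [hen]
        have : (0 : ℝ) ≤ ((part ev S k kl).card : ℝ) := Nat.cast_nonneg _
        linarith
      have h5 := mul_nonneg (by linarith : (0 : ℝ) ≤ 2 * Q) h4
      rw [hg'] at hred
      nlinarith
    · push Not at hbal
      have hg := gam_part (ev := ev) T Q J S k
      have h3 : (gam ev T Q J (part ev S k true) : ℝ) + gam ev T Q J (part ev S k false) ≤ gam ev T Q J S := by
        exact_mod_cast hg
      have h4 : (S.card : ℝ) ≤ (part ev S k kl).card * Q := by exact_mod_cast hbal.le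
      have h5 : (2 : ℝ) * Q * ((part ev S k kl).card / 2) ≤
          2 * Q * (en S.card - en (part ev S k kl).card - en (part ev S k !kl).card) :=
        mul_le_mul_of_nonneg_left hgain (by linarith)
      rw [hen] at hred
      nlinarith

/-- the crude bound -/
theorem crude {T : DTree τ} {Q : ℕ} (hQ : 2 ≤ Q) {t : DTree τ} {S : Finset α} (hT : Sep ev T S)
    (ht : IsGreedy ev t S) :
    (cost ev t S : ℝ) ≤ 2 * Q * en S.card + 16 * (Nat.log Q S.card * (mu ev T S : ℝ)) := by
  have hJ : ∃ J : ℕ, ∀ x ∈ S, rd ev T S x < 2 ^ J := by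
    refine ⟨mu ev T S, fun x hx => ?_⟩
    have h1 : rd ev T S x ≤ mu ev T S := by
      unfold mu
      exact Finset.single_le_sum (f := fun x => rd ev T S x) (fun y _ => Nat.zero_le _) hx
    exact h1.trans_lt Nat.lt_two_pow_self
  obtain ⟨J, hJ⟩ := hJ
  have h := crude_aux hQ hT ht hJ
  have h2 := gam_le (ev := ev) T Q J S
  have h3 : (gam ev T Q J S : ℝ) ≤ 4 * (Nat.log Q S.card * (mu ev T S : ℝ)) := by exact_mod_cast h2
  linarith

end Pool.Agent.Helper35.GT
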