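import Mathlib

/-!
# Greedy decision trees: definitions

`ev k x` is the value of the test `k` on the item `x`.
-/

set_option autoImplicit false

open Finset

namespace Pool.Agent.Helper35.GT

/-- Binary trees whose inner nodes are labelled by tests. -/
inductive DTree (τ : Type) : Type
  | leaf : DTree τ
  | node : τ → DTree τ → DTree τ → DTree τ

/-- The items of `S` on which the test `k` has the value `b`. -/
def part {τ α : Type} (ev : τ → α → Bool) (S : Finset α) (k : τ) (b : Bool) : Finset α :=
  S.filter fun x => ev k x = b

/-- The test `k` splits `S` into two nonempty parts. -/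
def Splits {τ α : Type} (ev : τ → α → Bool) (S : Finset α) (k : τ) : Prop :=
  (part ev S k true).Nonempty ∧ (part ev S k false).Nonempty

/-- `t` is a decision tree for the set `S` of items. -/
def IsTree {τ α : Type} (ev : τ → α → Bool) : DTree τ → Finset α → Prop
  | .leaf, S => S.card = 1
  | .node k l r, S => Splits ev S k ∧ IsTree ev l (part ev S k true) ∧ IsTree ev r (part ev S k false)

/-- The depth of the leaf which carries the item `x`. -/
def depth {τ α : Type} (ev : τ → α → Bool) : DTree τ → α → ℕ
  | .leaf, _ => 0
  | .node k l r, x => 1 + if ev k x = true then depth ev l x else depth ev r x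

/-- The cost of a tree: the sum over all items of the depth of the leaf carrying the item. -/
def cost {τ α : Type} (ev : τ → α → Bool) (t : DTree τ) (S : Finset α) : ℕ :=
  ∑ x ∈ S, depth ev t x

/-- `1/|S⁺| + 1/|S⁻|`. -/
noncomputable def score {τ α : Type} (ev : τ → α → Bool) (S : Finset α) (k : τ) : ℝ :=
  1 / ((part ev S k true).card : ℝ) + 1 / ((part ev S k false).card : ℝ)

/-- `t` is a tree for `S` which the greedy algorithm can produce: every inner node uses a test which minimises the score
among the tests which split the set of the node. -/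
def IsGreedy {τ α : Type} (ev : τ → α → Bool) : DTree τ → Finset α → Prop
  | .leaf, S => S.card = 1
  | .node k l r, S => Splits ev S k ∧ (∀ j, Splits ev S j → score ev S k ≤ score ev S j) ∧
      IsGreedy ev l (part ev S k true) ∧ IsGreedy ev r (part ev S k false)

/-- The minimum cost of a decision tree for `S`. -/
noncomputable def opt {τ α : Type} (ev : τ → α → Bool) (S : Finset α) : ℕ :=
  sInf {c : ℕ | ∃ t : DTree τ, IsTree ev t S ∧ cost ev t S = c}

/-- The items are vectors, the tests are the coordinates. -/
def coord {m : ℕ} : Fin m → (Fin m → Bool) → Bool := fun k x => x k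

/-- The ratios of the cost of a greedy tree to the minimum cost, for all instances with `n` items. -/
def ratios (n : ℕ) : Set ℝ :=
  {q : ℝ | ∃ (m : ℕ) (X : Finset (Fin m → Bool)) (t : DTree (Fin m)),
    X.card = n ∧ IsGreedy coord t X ∧ q = (cost coord t X : ℝ) / (opt coord X : ℝ)}

/-- The worst case ratio of the greedy algorithm for `n` items. -/
noncomputable def rho (n : ℕ) : ℝ := sSup (ratios n)

/-- The smaller part of the split by `k`. -/
def mn {τ α : Type} (ev : τ → α → Bool) (S : Finset α) (k : τ) : ℕ :=
  min (part ev S k true).card (part ev S k false).card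

section basics

variable {τ α : Type} {ev : τ → α → Bool}

theorem mem_part {S : Finset α} {k : τ} {b : Bool} {x : α} : x ∈ part ev S k b ↔ x ∈ S ∧ ev k x = b := by
  simp [part]

theorem part_sub (S : Finset α) (k : τ) (b : Bool) : part ev S k b ⊆ S := Finset.filter_subset _ _

theorem part_mono {S S' : Finset α} (h : S ⊆ S') (k : τ) (b : Bool) : part ev S k b ⊆ part ev S' k b :=
  Finset.filter_subset_filter _ h

theorem part_disj (S : Finset α) (k : τ) : Disjoint (part ev S k true) (part ev S k false) := by
  rw [Finset.disjoint_left]
  intro x hx hy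
  rw [mem_part] at hx hy
  rw [hx.2] at hy
  exact Bool.noConfusion hy.2

theorem part_card (S : Finset α) (k : τ) :
    (part ev S k true).card + (part ev S k false).card = S.card := by
  classical
  rw [← Finset.card_union_of_disjoint (part_disj S k)]
  congr 1
  ext x
  rw [Finset.mem_union, mem_part, mem_part]
  rcases ev k x with _ | _ <;> simp

theorem sum_part {M : Type} [AddCommMonoid M] (S : Finset α) (k : τ) (F : α → M) :
    ∑ x ∈ S, F x = ∑ x ∈ part ev S k true, F x + ∑ x ∈ part ev S k false, F x := by
  classical
  rw [← Finset.sum_union (part_disj S k)]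
  congr 1
  ext x
  rw [Finset.mem_union, mem_part, mem_part]
  rcases ev k x with _ | _ <;> simp

theorem cost_leaf (S : Finset α) : cost ev (.leaf : DTree τ) S = 0 := by
  simp [cost, depth]

theorem cost_node (k : τ) (l r : DTree τ) (S : Finset α) : cost ev (.node k l r) S =
    S.card + (cost ev l (part ev S k true) + cost ev r (part ev S k false)) := by
  unfold cost
  have h1 : ∀ x ∈ S, depth ev (.node k l r) x = 1 + (if ev k x = true then depth ev l x else depth ev r x) :=
    fun x _ => rfl
  rw [Finset.sum_congr rfl h1, Finset.sum_add_distrib, Finset.sum_const, smul_eq_mul, mul_one,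
    sum_part (ev := ev) S k]
  congr 2
  · apply Finset.sum_congr rfl
    intro x hx
    rw [if_pos (mem_part.1 hx).2]
  · apply Finset.sum_congr rfl
    intro x hx
    rw [if_neg]
    rw [(mem_part.1 hx).2]
    exact Bool.noConfusion

theorem IsGreedy.isTree {t : DTree τ} {S : Finset α} (h : IsGreedy ev t S) : IsTree ev t S := by
  induction t generalizing S with
  | leaf => exact h
  | node k l r ihl ihr => exact ⟨h.1, ihl h.2.2.1, ihr h.2.2.2⟩

theorem Splits.mono {S S' : Finset α} {k : τ} (h : S ⊆ S') (hs : Splits ev S k) : Splits ev S' k :=
  ⟨hs.1.mono (part_mono h k true), hs.2.mono (part_mono h k false)⟩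

theorem mn_mono {S S' : Finset α} (h : S ⊆ S') (k : τ) : mn ev S k ≤ mn ev S' k :=
  min_le_min (Finset.card_le_card (part_mono h k true)) (Finset.card_le_card (part_mono h k false))

theorem mn_pos {S : Finset α} {k : τ} (hs : Splits ev S k) : 1 ≤ mn ev S k :=
  le_min (Finset.card_pos.2 hs.1) (Finset.card_pos.2 hs.2)

theorem mn_le (S : Finset α) (k : τ) : 2 * mn ev S k ≤ S.card := by
  have := part_card (ev := ev) S k
  unfold mn
  omega

theorem mn_eq_zero {S : Finset α} {k : τ} (hs : ¬ Splits ev S k) : mn ev S k = 0 := by
  unfold Splits at hs
  rw [not_and_or, Finset.not_nonempty_iff_eq_empty, Finset.not_nonempty_iff_eq_empty] at hs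
  unfold mn
  rcases hs with h | h <;> simp [h]

theorem not_splits {S : Finset α} {k : τ} (hs : ¬ Splits ev S k) :
    (part ev S k true = ∅ ∧ part ev S k false = S) ∨ (part ev S k true = S ∧ part ev S k false = ∅) := by
  unfold Splits at hs
  rw [not_and_or, Finset.not_nonempty_iff_eq_empty, Finset.not_nonempty_iff_eq_empty] at hs
  have hc := part_card (ev := ev) S k
  rcases hs with h | h
  · left
    refine ⟨h, Finset.eq_of_subset_of_card_le (part_sub S k false) ?_⟩
    rw [h, Finset.card_empty] at hc
    omega
  · right
    refine ⟨Finset.eq_of_subset_of_card_le (part_sub S k true) ?_, h⟩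
    rw [h, Finset.card_empty] at hc
    omega

/-- the score decreases with the size of the smaller part -/
theorem score_le {S : Finset α} {j k : τ} (hj : Splits ev S j) (hk : Splits ev S k)
    (h : mn ev S j ≤ mn ev S k) : score ev S k ≤ score ev S j := by
  have h1 := part_card (ev := ev) S j
  have h2 := part_card (ev := ev) S k
  have j1 := Finset.card_pos.2 hj.1
  have j2 := Finset.card_pos.2 hj.2
  have k1 := Finset.card_pos.2 hk.1
  have k2 := Finset.card_pos.2 hk.2
  unfold mn at h
  unfold score
  set a := (part ev S j true).card
  set b := (part ev S j false).card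
  set c := (part ev S k true).card
  set d := (part ev S k false).card
  have hab : (a : ℝ) + b = c + d := by exact_mod_cast h1.trans h2.symm
  have ha : (0 : ℝ) < a := by exact_mod_cast j1
  have hb : (0 : ℝ) < b := by exact_mod_cast j2
  have hc : (0 : ℝ) < c := by exact_mod_cast k1
  have hd : (0 : ℝ) < d := by exact_mod_cast k2
  have key : (a : ℝ) * b ≤ c * d := by
    rcases le_total a b with hab' | hab' <;> rcases le_total c d with hcd' | hcd'
    · have h3 : (a : ℝ) ≤ c := by
        have : a ≤ c := by omega
        exact_mod_cast this
      have h4 : (c : ℝ) ≤ d := by exact_mod_cast hcd'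
      nlinarith
    · have h3 : (a : ℝ) ≤ d := by
        have : a ≤ d := by omega
        exact_mod_cast this
      have h4 : (d : ℝ) ≤ c := by exact_mod_cast hcd'
      nlinarith
    · have h3 : (b : ℝ) ≤ c := by
        have : b ≤ c := by omega
        exact_mod_cast this
      have h4 : (c : ℝ) ≤ d := by exact_mod_cast hcd'
      nlinarith
    · have h3 : (b : ℝ) ≤ d := by
        have : b ≤ d := by omega
        exact_mod_cast this
      have h4 : (d : ℝ) ≤ c := by exact_mod_cast hcd'
      nlinarith
  have e1 : 1 / (a : ℝ) + 1 / b = (a + b) / (a * b) := by field_simp; ring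
  have e2 : 1 / (c : ℝ) + 1 / d = (a + b) / (c * d) := by rw [hab]; field_simp; ring
  rw [e1, e2]
  exact div_le_div_of_nonneg_left (by linarith) (mul_pos ha hb) key

/-- a test with the least score has the largest smaller part -/
theorem mn_le_of_score {S : Finset α} {j k : τ} (hj : Splits ev S j) (hk : Splits ev S k)
    (h : score ev S k ≤ score ev S j) : mn ev S j ≤ mn ev S k := by
  by_contra hlt
  push Not at hlt
  have h1 := part_card (ev := ev) S j
  have h2 := part_card (ev := ev) S k
  have j1 := Finset.card_pos.2 hj.1
  have j2 := Finset.card_pos.2 hj.2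
  have k1 := Finset.card_pos.2 hk.1
  have k2 := Finset.card_pos.2 hk.2
  unfold mn at hlt
  unfold score at h
  set a := (part ev S j true).card
  set b := (part ev S j false).card
  set c := (part ev S k true).card
  set d := (part ev S k false).card
  have hab : (a : ℝ) + b = c + d := by exact_mod_cast h1.trans h2.symm
  have ha : (0 : ℝ) < a := by exact_mod_cast j1
  have hb : (0 : ℝ) < b := by exact_mod_cast j2
  have hc : (0 : ℝ) < c := by exact_mod_cast k1
  have hd : (0 : ℝ) < d := by exact_mod_cast k2
  have key : (c : ℝ) * d < a * b := by
    rcases le_total a b with hab' | hab' <;> rcases le_total c d with hcd' | hcd'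
    · have h3 : (c : ℝ) < a := by
        have : c < a := by omega
        exact_mod_cast this
      have h4 : (a : ℝ) ≤ b := by exact_mod_cast hab'
      nlinarith
    · have h3 : (d : ℝ) < a := by
        have : d < a := by omega
        exact_mod_cast this
      have h4 : (a : ℝ) ≤ b := by exact_mod_cast hab'
      nlinarith
    · have h3 : (c : ℝ) < b := by
        have : c < b := by omega
        exact_mod_cast this
      have h4 : (b : ℝ) ≤ a := by exact_mod_cast hab'
      nlinarith
    · have h3 : (d : ℝ) < b := by
        have : d < b := by omega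
        exact_mod_cast this
      have h4 : (b : ℝ) ≤ a := by exact_mod_cast hab'
      nlinarith
  have e1 : 1 / (a : ℝ) + 1 / b = (a + b) / (a * b) := by field_simp; ring
  have e2 : 1 / (c : ℝ) + 1 / d = (a + b) / (c * d) := by rw [hab]; field_simp; ring
  rw [e1, e2] at h
  have := div_lt_div_of_pos_left (by linarith : (0 : ℝ) < a + b) (mul_pos hc hd) key
  linarith

/-- at a greedy node all tests have a smaller part at most as large as the greedy test -/
theorem greedy_mn {S : Finset α} {k : τ} (hk : Splits ev S k)
    (h : ∀ j, Splits ev S j → score ev S k ≤ score ev S j) (j : τ) : mn ev S j ≤ mn ev S k := by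
  by_cases hj : Splits ev S j
  · exact mn_le_of_score hj hk (h j hj)
  · rw [mn_eq_zero hj]; exact Nat.zero_le _

end basics

end Pool.Agent.Helper35.GT
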