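import Pool.Agent.Helper35.GT.Trees

/-!
# Greedy decision trees: the instances for the lower bound
-/

set_option autoImplicit false

open Finset

namespace Pool.Agent.Helper35.GT

/-- The tests. -/
inductive Tst : Type
  | grp (i : ℕ)
  | bit (i j : ℕ)
  | one (e : ℕ)
  | seg (u v : ℕ)

/-- The values of the tests. -/
def tev (K : ℕ) : Tst → ℕ × ℕ → Bool
  | .grp i, p => decide (p.1 = i)
  | .bit i j, p => decide (p.1 = i) && p.2.testBit j
  | .one e, p => decide (p = (K, e))
  | .seg u v, p => decide (p.1 < K ∧ u ≤ p.2 ∧ p.2 < v)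

/-- The family of tests which is used. -/
def Fam (K r M : ℕ) (G : Finset (ℕ × ℕ)) : Tst → Prop
  | .grp i => i < K
  | .bit i j => i < K ∧ j < M
  | .one e => e < r
  | .seg u v => (u, v) ∈ G

/-- The type of the tests. -/
abbrev Fm (K r M : ℕ) (G : Finset (ℕ × ℕ)) : Type := {k : Tst // Fam K r M G k}

/-- The values. -/
def fev {K r M : ℕ} {G : Finset (ℕ × ℕ)} : Fm K r M G → ℕ × ℕ → Bool := fun k p => tev K k.1 p

/-- The block of the items `(i, y)` with `i < K`, `u ≤ y < u + m`. -/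
def blk (K u m : ℕ) : Finset (ℕ × ℕ) := range K ×ˢ Ico u (u + m)

theorem mem_blk {K u m : ℕ} {p : ℕ × ℕ} : p ∈ blk K u m ↔ p.1 < K ∧ u ≤ p.2 ∧ p.2 < u + m := by
  unfold blk
  rw [Finset.mem_product, Finset.mem_range, Finset.mem_Ico]

theorem blk_card (K u m : ℕ) : (blk K u m).card = K * m := by
  unfold blk
  rw [Finset.card_product, Finset.card_range, Nat.card_Ico]
  congr 1
  omega

theorem fam_finite (K r M : ℕ) (G : Finset (ℕ × ℕ)) : Finite (Fm K r M G) := by
  have h : ({k : Tst | Fam K r M G k}).Finite := by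
    apply Set.Finite.subset (s := (Tst.grp '' Set.Iio K) ∪ ((fun p : ℕ × ℕ => Tst.bit p.1 p.2) '' (Set.Iio K ×ˢ Set.Iio M)) ∪
      (Tst.one '' Set.Iio r) ∪ ((fun p : ℕ × ℕ => Tst.seg p.1 p.2) '' (G : Set (ℕ × ℕ))))
    · exact ((((Set.finite_Iio K).image _).union (((Set.finite_Iio K).prod (Set.finite_Iio M)).image _)).union
        ((Set.finite_Iio r).image _)).union (G.finite_toSet.image _)
    · rintro (i | ⟨i, j⟩ | e | ⟨u, v⟩) hk
      · exact Or.inl (Or.inl (Or.inl ⟨i, hk, rfl⟩))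
      · exact Or.inl (Or.inl (Or.inr ⟨(i, j), ⟨hk.1, hk.2⟩, rfl⟩))
      · exact Or.inl (Or.inr ⟨e, hk, rfl⟩)
      · exact Or.inr ⟨(u, v), hk, rfl⟩
  exact h.to_subtype

/-- bits separate numbers -/
theorem bits_sep {M y z : ℕ} (hy : y < 2 ^ M) (hz : z < 2 ^ M) (hne : y ≠ z) :
    ∃ j < M, y.testBit j ≠ z.testBit j := by
  by_contra hcon
  push Not at hcon
  apply hne
  apply Nat.eq_of_testBit_eq
  intro j
  by_cases hj : j < M
  · exact hcon j hj
  · have h1 : y < 2 ^ j := hy.trans_le (Nat.pow_le_pow_right (by norm_num) (by omega))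
    have h2 : z < 2 ^ j := hz.trans_le (Nat.pow_le_pow_right (by norm_num) (by omega))
    rw [Nat.testBit_lt_two_pow h1, Nat.testBit_lt_two_pow h2]

/-- the tests separate the items -/
theorem fam_sep {K r M : ℕ} {G : Finset (ℕ × ℕ)} {x y : ℕ × ℕ} (hx : x.1 < K ∧ x.2 < 2 ^ M ∨ x.1 = K ∧ x.2 < r)
    (hy : y.1 < K ∧ y.2 < 2 ^ M ∨ y.1 = K ∧ y.2 < r) (hne : x ≠ y) :
    ∃ k : Fm K r M G, fev k x ≠ fev k y := by
  by_cases h1 : x.1 = y.1
  · have h2 : x.2 ≠ y.2 := fun h => hne (Prod.ext h1 h)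
    rcases hx with hx | hx
    · rcases hy with hy | hy
      · obtain ⟨j, hj, hb⟩ := bits_sep hx.2 hy.2 h2
        refine ⟨⟨.bit x.1 j, hx.1, hj⟩, ?_⟩
        show (decide (x.1 = x.1) && x.2.testBit j) ≠ (decide (y.1 = x.1) && y.2.testBit j)
        rw [decide_eq_true rfl, decide_eq_true h1.symm, Bool.true_and, Bool.true_and]
        exact hb
      · omega
    · refine ⟨⟨.one x.2, hx.2⟩, ?_⟩
      show decide (x = (K, x.2)) ≠ decide (y = (K, x.2))
      rw [decide_eq_true (show x = (K, x.2) from Prod.ext hx.1 rfl), decide_eq_false]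
      · exact Bool.noConfusion
      · intro h
        rw [h] at h2
        exact h2 rfl
  · rcases hx with hx | hx
    · refine ⟨⟨.grp x.1, hx.1⟩, ?_⟩
      show decide (x.1 = x.1) ≠ decide (y.1 = x.1)
      rw [decide_eq_true rfl, decide_eq_false (fun h => h1 h.symm)]
      exact Bool.noConfusion
    · rcases hy with hy | hy
      · refine ⟨⟨.grp y.1, hy.1⟩, ?_⟩
        show decide (x.1 = y.1) ≠ decide (y.1 = y.1)
        rw [decide_eq_true rfl, decide_eq_false h1]
        exact Bool.noConfusion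
      · omega

/-- the entropy estimate -/
theorem ent {K m a : ℕ} (hK : 4 ≤ K) (hm : K ^ 2 ≤ m) (ha : a = m / K + 1) :
    (m : ℝ) * Real.log m - a * Real.log a - ((m - a : ℕ) : ℝ) * Real.log ((m - a : ℕ) : ℝ) ≤
      m * ((1 / K) * (1 + 1 / K) * (Real.log K + 1)) := by
  have hKr : (4 : ℝ) ≤ K := by exact_mod_cast hK
  have hmr : (K : ℝ) ^ 2 ≤ m := by exact_mod_cast hm
  have hm16 : 16 ≤ m := by nlinarith
  have hm0 : (0 : ℝ) < m := by nlinarith
  have ham : 2 * a ≤ m := by
    have h1 : m / K ≤ m / 4 := Nat.div_le_div_left hK (by norm_num)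
    omega
  have ha1 : 1 ≤ a := by rw [ha]; exact Nat.le_add_left 1 _
  have har : (1 : ℝ) ≤ a := by exact_mod_cast ha1
  have hKa : m < K * a := by
    rw [ha]
    exact Nat.lt_mul_div_succ m (by omega)
  have hKar : (m : ℝ) ≤ K * a := by exact_mod_cast hKa.le
  have haK : (a : ℝ) ≤ m / K + 1 := by
    rw [ha]
    push_cast
    have := Nat.cast_div_le (α := ℝ) (m := m) (n := K)
    linarith
  have ham' : a ≤ m := by omega
  have hb : ((m - a : ℕ) : ℝ) = m - a := by rw [Nat.cast_sub ham']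
  have hamr : 2 * (a : ℝ) ≤ m := by exact_mod_cast ham
  rw [hb]
  have hb0 : (0 : ℝ) < m - a := by linarith
  have h1 : Real.log m - Real.log a ≤ Real.log K := by
    rw [← Real.log_div hm0.ne' (by linarith)]
    apply Real.log_le_log (by positivity)
    rw [div_le_iff₀ (by linarith)]
    exact hKar
  have h2 : ((m : ℝ) - a) * (Real.log m - Real.log (m - a)) ≤ a := by
    rw [← Real.log_div hm0.ne' hb0.ne']
    have := Real.log_le_sub_one_of_pos (x := (m : ℝ) / (m - a)) (by positivity)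
    calc ((m : ℝ) - a) * Real.log (m / (m - a)) ≤ (m - a) * (m / (m - a) - 1) :=
          mul_le_mul_of_nonneg_left this hb0.le
      _ = a := by field_simp; ring
  have h3 : (a : ℝ) * (Real.log m - Real.log a) ≤ a * Real.log K := mul_le_mul_of_nonneg_left h1 (by linarith)
  have h4 : (m : ℝ) * Real.log m - a * Real.log a - (m - a) * Real.log (m - a) ≤ a * (Real.log K + 1) := by
    linarith
  refine h4.trans ?_
  have h5 : (a : ℝ) ≤ m * ((1 / K) * (1 + 1 / K)) := by
    have e1 : (m : ℝ) * ((1 / K) * (1 + 1 / K)) = m / K + m / K ^ 2 := by field_simp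
    rw [e1]
    have : (1 : ℝ) ≤ m / K ^ 2 := by
      rw [le_div_iff₀ (by positivity), one_mul]
      exact hmr
    linarith
  have h6 : 0 ≤ Real.log K + 1 := by
    have := Real.log_natCast_nonneg K
    linarith
  calc (a : ℝ) * (Real.log K + 1) ≤ m * ((1 / K) * (1 + 1 / K)) * (Real.log K + 1) :=
        mul_le_mul_of_nonneg_right h5 h6
    _ = _ := by ring

/-- `K / h` -/
noncomputable def cK (K : ℕ) : ℝ := (K : ℝ) / ((1 / K) * (1 + 1 / K) * (Real.log K + 1))

theorem cK_nonneg (K : ℕ) : 0 ≤ cK K := by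
  unfold cK
  have := Real.log_natCast_nonneg K
  positivity

/-- the lower bound for a block -/
noncomputable def fK (K m : ℕ) : ℝ := cK K * ((m : ℝ) * (Real.log m - 2 * Real.log K))

theorem fK_step {K m a : ℕ} (hK : 4 ≤ K) (hm : K ^ 2 ≤ m) (ha : a = m / K + 1) :
    fK K m ≤ K * m + fK K a + fK K (m - a) := by
  have h := ent hK hm ha
  have hKr : (4 : ℝ) ≤ K := by exact_mod_cast hK
  have hl : 0 ≤ Real.log K := Real.log_natCast_nonneg K
  have hh : 0 < (1 / (K : ℝ)) * (1 + 1 / K) * (Real.log K + 1) := by positivity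
  have ham : a ≤ m := by
    have h1 : m / K ≤ m / 4 := Nat.div_le_div_left hK (by norm_num)
    have : 16 ≤ m := by nlinarith
    omega
  have hb : ((m - a : ℕ) : ℝ) = m - a := by rw [Nat.cast_sub ham]
  have h2 := mul_le_mul_of_nonneg_left h (cK_nonneg K)
  have h3 : cK K * (m * ((1 / K) * (1 + 1 / K) * (Real.log K + 1))) = K * m := by
    unfold cK
    field_simp
  rw [h3] at h2
  unfold fK
  rw [hb] at h2 ⊢
  nlinarith

theorem fK_neg {K m : ℕ} (hm : m < K ^ 2) (hm1 : 1 ≤ m) : fK K m ≤ 0 := by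
  unfold fK
  have h1 : Real.log m ≤ 2 * Real.log K := by
    have : Real.log m ≤ Real.log ((K : ℝ) ^ 2) := by
      apply Real.log_le_log (by exact_mod_cast hm1)
      exact_mod_cast hm.le
    rw [Real.log_pow] at this
    exact_mod_cast this
  have h2 := cK_nonneg K
  have h3 : (m : ℝ) * (Real.log m - 2 * Real.log K) ≤ 0 :=
    mul_nonpos_of_nonneg_of_nonpos (Nat.cast_nonneg _) (by linarith)
  exact mul_nonpos_of_nonneg_of_nonpos h2 h3

end Pool.Agent.Helper35.GT
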