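import Pool.Agent.Helper35.GT.Defs

/-!
# Greedy decision trees: the optimal tree restricted to a subset
-/

set_option autoImplicit false

open Finset

namespace Pool.Agent.Helper35.GT

variable {τ α : Type} {ev : τ → α → Bool}

open Classical in
/-- The number of nodes on the path of `x` whose test splits `S`. -/
noncomputable def rd (ev : τ → α → Bool) : DTree τ → Finset α → α → ℕ
  | .leaf, _, _ => 0
  | .node k l r, S, x => (if Splits ev S k then 1 else 0) +
      if ev k x = true then rd ev l (part ev S k true) x else rd ev r (part ev S k false) x

/-- The total restricted depth. -/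
noncomputable def mu (ev : τ → α → Bool) (T : DTree τ) (S : Finset α) : ℕ := ∑ x ∈ S, rd ev T S x

/-- The tree separates the elements of `S`. -/
def Sep (ev : τ → α → Bool) : DTree τ → Finset α → Prop
  | .leaf, S => S.card ≤ 1
  | .node k l r, S => Sep ev l (part ev S k true) ∧ Sep ev r (part ev S k false)

theorem Sep.mono {T : DTree τ} {S S' : Finset α} (h : S ⊆ S') (hs : Sep ev T S') : Sep ev T S := by
  induction T generalizing S S' with
  | leaf => exact (Finset.card_le_card h).trans hs
  | node k l r ihl ihr =>
    exact ⟨ihl (part_mono h k true) hs.1, ihr (part_mono h k false) hs.2⟩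

theorem IsTree.sep {T : DTree τ} {S : Finset α} (h : IsTree ev T S) : Sep ev T S := by
  induction T generalizing S with
  | leaf => exact le_of_eq h
  | node k l r ihl ihr => exact ⟨ihl h.2.1, ihr h.2.2⟩

theorem rd_mono {T : DTree τ} {S S' : Finset α} (h : S ⊆ S') (x : α) : rd ev T S x ≤ rd ev T S' x := by
  induction T generalizing S S' with
  | leaf => exact le_rfl
  | node k l r ihl ihr =>
    rw [rd, rd]
    apply Nat.add_le_add
    · by_cases hs : Splits ev S k
      · rw [if_pos hs, if_pos (hs.mono h)]
      · rw [if_neg hs]; exact Nat.zero_le _
    · split_ifs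
      · exact ihl (part_mono h k true)
      · exact ihr (part_mono h k false)

theorem rd_true {k : τ} {l r : DTree τ} {S : Finset α} {x : α} (hx : ev k x = true) :
    rd ev (.node k l r) S x = rd ev (.node k l r) S x := rfl

open Classical in
theorem mu_node (k : τ) (l r : DTree τ) (S : Finset α) : mu ev (.node k l r) S =
    (if Splits ev S k then S.card else 0) + (mu ev l (part ev S k true) + mu ev r (part ev S k false)) := by
  unfold mu
  have h1 : ∀ x ∈ S, rd ev (.node k l r) S x = (if Splits ev S k then 1 else 0) +
      (if ev k x = true then rd ev l (part ev S k true) x else rd ev r (part ev S k false) x) :=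
    fun x _ => rfl
  rw [Finset.sum_congr rfl h1, Finset.sum_add_distrib, Finset.sum_const, smul_eq_mul,
    sum_part (ev := ev) S k]
  congr 1
  · split_ifs <;> simp
  · congr 1
    · apply Finset.sum_congr rfl
      intro x hx
      rw [if_pos (mem_part.1 hx).2]
    · apply Finset.sum_congr rfl
      intro x hx
      rw [if_neg]
      rw [(mem_part.1 hx).2]
      exact Bool.noConfusion

theorem mu_split {k : τ} {l r : DTree τ} {S : Finset α} (h : Splits ev S k) : mu ev (.node k l r) S =
    S.card + (mu ev l (part ev S k true) + mu ev r (part ev S k false)) := by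
  classical
  rw [mu_node, if_pos h]

theorem mu_empty (T : DTree τ) : mu ev T (∅ : Finset α) = 0 := by
  simp [mu]

/-- the restricted depths are the depths if `T` is a tree for `S` -/
theorem rd_eq {T : DTree τ} {S : Finset α} (h : IsTree ev T S) (x : α) : rd ev T S x = depth ev T x := by
  induction T generalizing S with
  | leaf => rfl
  | node k l r ihl ihr =>
    rw [rd, depth, if_pos h.1, ihl h.2.1, ihr h.2.2]

theorem mu_eq {T : DTree τ} {S : Finset α} (h : IsTree ev T S) : mu ev T S = cost ev T S := by
  unfold mu cost
  exact Finset.sum_congr rfl fun x _ => rd_eq h x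

/-- superadditivity -/
theorem mu_part (T : DTree τ) (S : Finset α) (k : τ) :
    mu ev T (part ev S k true) + mu ev T (part ev S k false) ≤ mu ev T S := by
  unfold mu
  rw [sum_part (ev := ev) S k]
  apply Nat.add_le_add
  · exact Finset.sum_le_sum fun x _ => rd_mono (part_sub S k true) x
  · exact Finset.sum_le_sum fun x _ => rd_mono (part_sub S k false) x

/-- every element has positive depth in a set with two elements -/
theorem rd_pos {T : DTree τ} {S : Finset α} (hT : Sep ev T S) (h2 : 2 ≤ S.card) {x : α} (hx : x ∈ S) :
    1 ≤ rd ev T S x := by
  induction T generalizing S with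
  | leaf =>
    have h1 : S.card ≤ 1 := hT
    omega
  | node k l r ihl ihr =>
    rw [rd]
    by_cases hs : Splits ev S k
    · rw [if_pos hs]; omega
    · rw [if_neg hs]
      rcases not_splits hs with ⟨h, h'⟩ | ⟨h, h'⟩
      · have hk : ¬ ev k x = true := by
          intro hk
          have : x ∈ part ev S k true := mem_part.2 ⟨hx, hk⟩
          rw [h] at this
          exact absurd this (Finset.notMem_empty _)
        rw [if_neg hk, h']
        have h3 := hT.2
        rw [h'] at h3
        have := ihr h3 h2 hx
        omega
      · have hk : ev k x = true := by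
          rw [← h] at hx
          exact (mem_part.1 hx).2
        rw [if_pos hk, h]
        have h3 := hT.1
        rw [h] at h3
        have := ihl h3 h2 hx
        omega

/-- the local inequality: if no test has a smaller part with more than `a` elements -/
theorem mu_lower {T : DTree τ} {S : Finset α} {a : ℕ} (ha : 1 ≤ a) (hT : Sep ev T S)
    (hmax : ∀ k, mn ev S k ≤ a) (hS : 1 ≤ S.card) :
    S.card ^ 2 + a * S.card ≤ 2 * a * mu ev T S + a + 1 := by
  induction T generalizing S with
  | leaf =>
    have h1 : S.card ≤ 1 := hT
    have h2 : S.card = 1 := by omega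
    rw [h2]
    nlinarith
  | node k l r ihl ihr =>
    by_cases hs : Splits ev S k
    · rw [mu_split hs]
      have hc := part_card (ev := ev) S k
      have hp := Finset.card_pos.2 hs.1
      have hq := Finset.card_pos.2 hs.2
      have hm := hmax k
      unfold mn at hm
      have h1 := ihl hT.1 (fun j => (mn_mono (part_sub S k true) j).trans (hmax j)) hp
      have h2 := ihr hT.2 (fun j => (mn_mono (part_sub S k false) j).trans (hmax j)) hq
      set p := (part ev S k true).card
      set q := (part ev S k false).card
      set m1 := mu ev l (part ev S k true)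
      set m2 := mu ev r (part ev S k false)
      rw [← hc]
      rcases le_total p q with hpq | hpq
      · have hpa : p ≤ a := by omega
        have h3 : p * p ≤ a * p := Nat.mul_le_mul_right p hpa
        have h4 : p * q ≤ a * q := Nat.mul_le_mul_right q hpa
        nlinarith [Nat.zero_le (a * m1)]
      · have hqa : q ≤ a := by omega
        have h3 : q * q ≤ a * q := Nat.mul_le_mul_right q hqa
        have h4 : q * p ≤ a * p := Nat.mul_le_mul_right p hqa
        nlinarith [Nat.zero_le (a * m2)]
    · rw [mu_node, if_neg hs, Nat.zero_add]
      rcases not_splits hs with ⟨h, h'⟩ | ⟨h, h'⟩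
      · rw [h, h', mu_empty, Nat.zero_add]
        have h3 := hT.2
        rw [h'] at h3
        exact ihr h3 hmax hS
      · rw [h, h', mu_empty, Nat.add_zero]
        have h3 := hT.1
        rw [h] at h3
        exact ihl h3 hmax hS

theorem mu_lower' {T : DTree τ} {S : Finset α} {a : ℕ} (ha : 1 ≤ a) (hT : Sep ev T S)
    (hmax : ∀ k, mn ev S k ≤ a) (hS : 2 ≤ S.card) : S.card ^ 2 ≤ 2 * a * mu ev T S := by
  have h := mu_lower ha hT hmax (by omega)
  nlinarith

/-- few elements have small restricted depth -/
theorem rd_count {T : DTree τ} {S : Finset α} {a : ℕ} (hT : Sep ev T S)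
    (hmax : ∀ k, mn ev S k ≤ a) (u : ℕ) : (S.filter fun x => rd ev T S x ≤ u).card ≤ a * u + 1 := by
  induction T generalizing S u with
  | leaf =>
    have h1 : S.card ≤ 1 := hT
    exact (Finset.card_filter_le _ _).trans (h1.trans (by omega))
  | node k l r ihl ihr =>
    by_cases hs : Splits ev S k
    · rcases u with _ | u
      · have : (S.filter fun x => rd ev (.node k l r) S x ≤ 0) = ∅ := by
          rw [Finset.filter_eq_empty_iff]
          intro x _
          rw [rd, if_pos hs]
          omega
        rw [this]; simp
      · have hm := hmax k
        have hc := part_card (ev := ev) S k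
        unfold mn at hm
        have h1 := ihl hT.1 (fun j => (mn_mono (part_sub S k true) j).trans (hmax j)) u
        have h2 := ihr hT.2 (fun j => (mn_mono (part_sub S k false) j).trans (hmax j)) u
        have h0 : (S.filter fun x => rd ev (.node k l r) S x ≤ u + 1).card =
            ((part ev S k true).filter fun x => rd ev l (part ev S k true) x ≤ u).card +
            ((part ev S k false).filter fun x => rd ev r (part ev S k false) x ≤ u).card := by
          rw [Finset.card_filter, Finset.card_filter, Finset.card_filter, sum_part (ev := ev) S k]
          congr 1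
          · apply Finset.sum_congr rfl
            intro x hx
            rw [rd, if_pos hs, if_pos (mem_part.1 hx).2]
            congr 1
            rw [eq_iff_iff]; omega
          · apply Finset.sum_congr rfl
            intro x hx
            have hk : ¬ ev k x = true := by
              rw [(mem_part.1 hx).2]; exact Bool.noConfusion
            rw [rd, if_pos hs, if_neg hk]
            congr 1
            rw [eq_iff_iff]; omega
        rw [h0]
        have h3 := Finset.card_filter_le (part ev S k true) (fun x => rd ev l (part ev S k true) x ≤ u)
        have h4 := Finset.card_filter_le (part ev S k false) (fun x => rd ev r (part ev S k false) x ≤ u)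
        have h5 : a * (u + 1) = a * u + a := by ring
        rw [h5]
        rcases le_total (part ev S k true).card (part ev S k false).card with h | h <;> omega
    · have h0 : (S.filter fun x => rd ev (.node k l r) S x ≤ u).card =
            ((part ev S k true).filter fun x => rd ev l (part ev S k true) x ≤ u).card +
            ((part ev S k false).filter fun x => rd ev r (part ev S k false) x ≤ u).card := by
          rw [Finset.card_filter, Finset.card_filter, Finset.card_filter, sum_part (ev := ev) S k]
          congr 1
          · apply Finset.sum_congr rfl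
            intro x hx
            rw [rd, if_neg hs, if_pos (mem_part.1 hx).2, Nat.zero_add]
          · apply Finset.sum_congr rfl
            intro x hx
            have hk : ¬ ev k x = true := by
              rw [(mem_part.1 hx).2]; exact Bool.noConfusion
            rw [rd, if_neg hs, if_neg hk, Nat.zero_add]
      rw [h0]
      rcases not_splits hs with ⟨h, h'⟩ | ⟨h, h'⟩
      · rw [h, h']
        have h3 := hT.2
        rw [h'] at h3
        have := ihr h3 hmax u
        simpa using this
      · rw [h, h']
        have h3 := hT.1
        rw [h] at h3
        have := ihl h3 hmax u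
        simpa using this

/-- `s log s ≤ log 2 * mu` -/
theorem mu_log {T : DTree τ} {S : Finset α} (hT : Sep ev T S) :
    (S.card : ℝ) * Real.log S.card ≤ Real.log 2 * (mu ev T S : ℝ) := by
  induction T generalizing S with
  | leaf =>
    have h1 : S.card ≤ 1 := hT
    have h2 : (S.card : ℝ) * Real.log S.card = 0 := by
      rcases Nat.le_one_iff_eq_zero_or_eq_one.1 h1 with h | h <;> simp [h]
    rw [h2]
    exact mul_nonneg (Real.log_nonneg (by norm_num)) (Nat.cast_nonneg _)
  | node k l r ihl ihr =>
    by_cases hs : Splits ev S k
    · rw [mu_split hs]
      have hc := part_card (ev := ev) S k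
      have hp := Finset.card_pos.2 hs.1
      have hq := Finset.card_pos.2 hs.2
      have h1 := ihl hT.1
      have h2 := ihr hT.2
      set p := (part ev S k true).card
      set q := (part ev S k false).card
      have hsr : (S.card : ℝ) = (p : ℝ) + q := by exact_mod_cast hc.symm
      have hp' : (0 : ℝ) < p := by exact_mod_cast hp
      have hq' : (0 : ℝ) < q := by exact_mod_cast hq
      have hs' : (0 : ℝ) < (p : ℝ) + q := by linarith
      have hl2 : 0 < Real.log 2 := Real.log_pos (by norm_num)
      -- p log (s/(2p)) ≤ s/2 - p
      have e1 : (p : ℝ) * Real.log ((p + q) / (2 * p)) ≤ ((p : ℝ) + q) / 2 - p := by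
        have := Real.log_le_sub_one_of_pos (x := ((p : ℝ) + q) / (2 * p)) (by positivity)
        calc (p : ℝ) * Real.log ((p + q) / (2 * p)) ≤ p * (((p : ℝ) + q) / (2 * p) - 1) :=
              mul_le_mul_of_nonneg_left this hp'.le
          _ = ((p : ℝ) + q) / 2 - p := by field_simp
      have e2 : (q : ℝ) * Real.log ((p + q) / (2 * q)) ≤ ((p : ℝ) + q) / 2 - q := by
        have := Real.log_le_sub_one_of_pos (x := ((p : ℝ) + q) / (2 * q)) (by positivity)
        calc (q : ℝ) * Real.log ((p + q) / (2 * q)) ≤ q * (((p : ℝ) + q) / (2 * q) - 1) :=
              mul_le_mul_of_nonneg_left this hq'.le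
          _ = ((p : ℝ) + q) / 2 - q := by field_simp
      rw [Real.log_div hs'.ne' (by positivity), Real.log_mul (by norm_num) hp'.ne'] at e1
      rw [Real.log_div hs'.ne' (by positivity), Real.log_mul (by norm_num) hq'.ne'] at e2
      rw [hsr]
      push_cast
      rw [hsr]
      nlinarith
    · rw [mu_node, if_neg hs, Nat.zero_add]
      rcases not_splits hs with ⟨h, h'⟩ | ⟨h, h'⟩
      · rw [h, h', mu_empty, Nat.zero_add]
        have h3 := hT.2
        rw [h'] at h3
        exact ihr h3
      · rw [h, h', mu_empty, Nat.add_zero]
        have h3 := hT.1
        rw [h] at h3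
        exact ihl h3

end Pool.Agent.Helper35.GT
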