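import Pool.Agent.Helper35.GT.Crude

/-!
# Greedy decision trees: the sharp upper bound
-/

set_option autoImplicit false

open Finset

namespace Pool.Agent.Helper35.GT

/-- the truncated logarithm -/
noncomputable def ell (T0 c : ℝ) : ℝ := min (Real.log c) (T0 + 1)

/-- the entropy part of the potential -/
noncomputable def psi (T0 m s : ℝ) : ℝ := (T0 + 2) * m - m * ell T0 (m / s)

theorem psi_nonneg {T0 m s : ℝ} (hm : 0 ≤ m) : 0 ≤ psi T0 m s := by
  unfold psi ell
  have h1 : min (Real.log (m / s)) (T0 + 1) ≤ T0 + 1 := min_le_right _ _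
  have h2 := mul_le_mul_of_nonneg_left h1 hm
  linarith

theorem tangent {T0 x a c : ℝ} (hx : 0 ≤ x) (ha : 0 < a) (hc : 0 < c) (hcT : Real.log c ≤ T0) :
    x * (Real.log c + 1) - c * a ≤ x * ell T0 (x / a) := by
  have hca : 0 < c * a := mul_pos hc ha
  rcases hx.eq_or_lt with h0 | h0
  · rw [← h0]
    linarith
  · unfold ell
    rcases min_choice (Real.log (x / a)) (T0 + 1) with h | h
    · rw [h, Real.log_div h0.ne' ha.ne']
      have h1 := Real.log_le_sub_one_of_pos (x := c * a / x) (by positivity)
      rw [Real.log_div hca.ne' h0.ne', Real.log_mul hc.ne' ha.ne'] at h1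
      have h2 := mul_le_mul_of_nonneg_left h1 h0.le
      have h3 : x * (c * a / x - 1) = c * a - x := by field_simp
      rw [h3] at h2
      linarith
    · rw [h]
      have := mul_le_mul_of_nonneg_left (by linarith : Real.log c + 1 ≤ T0 + 1) hx
      linarith

theorem tangent' {T0 x a c : ℝ} (hx : 0 ≤ x) (ha : 0 < a) (hc : 0 < c) (hcT : Real.log c ≤ T0)
    (hxc : x ≤ c * a) :
    x * (Real.log c + 1) - c * a + c * a * ((1 - x / (c * a)) ^ 2 / 4) ≤ x * ell T0 (x / a) := by
  have hca : 0 < c * a := mul_pos hc ha
  rcases hx.eq_or_lt with h0 | h0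
  · rw [← h0]
    simp only [zero_div, sub_zero, one_pow, zero_mul, zero_sub]
    linarith
  · have h1 : ell T0 (x / a) = Real.log (x / a) := by
      unfold ell
      apply min_eq_left
      have : Real.log (x / a) ≤ Real.log c := by
        apply Real.log_le_log (by positivity)
        rw [div_le_iff₀ ha]
        exact hxc
      linarith
    rw [h1]
    set θ := x / (c * a) with hθ
    have hθ0 : 0 < θ := by positivity
    have hθ1 : θ ≤ 1 := by rw [hθ, div_le_one hca]; exact hxc
    have hxθ : x = c * a * θ := by rw [hθ]; field_simp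
    set q := Real.sqrt θ with hq
    have hq0 : 0 < q := Real.sqrt_pos.2 hθ0
    have hqq : q * q = θ := Real.mul_self_sqrt hθ0.le
    have hq1 : q ≤ 1 := by
      by_contra hlt
      push Not at hlt
      nlinarith
    have h2 : Real.log (x / a) = Real.log c + 2 * Real.log q := by
      have : x / a = c * (q * q) := by rw [hqq, hxθ]; field_simp
      rw [this, Real.log_mul hc.ne' (by positivity), Real.log_mul hq0.ne' hq0.ne']
      ring
    have h3 : 1 - 1 / q ≤ Real.log q := by
      have := Real.one_sub_inv_le_log_of_pos hq0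
      rwa [← one_div] at this
    rw [h2]
    have h4 : x * (Real.log c + 2 * (1 - 1 / q)) ≤ x * (Real.log c + 2 * Real.log q) :=
      mul_le_mul_of_nonneg_left (by linarith) h0.le
    have h5 : x * (Real.log c + 2 * (1 - 1 / q)) = x * (Real.log c + 1) - c * a + c * a * (1 - q) ^ 2 := by
      rw [hxθ, ← hqq]
      field_simp
      ring
    have h6 : (1 - θ) ^ 2 / 4 ≤ (1 - q) ^ 2 := by
      rw [← hqq]
      have : (1 - q * q) ^ 2 = (1 - q) ^ 2 * (1 + q) ^ 2 := by ring
      rw [this]
      have h7 : (1 + q) ^ 2 ≤ 4 := by nlinarith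
      nlinarith [sq_nonneg (1 - q)]
    have h8 := mul_le_mul_of_nonneg_left h6 hca.le
    linarith

theorem delta_aux {T0 m mL mH a b : ℝ} (ha : 0 < a) (hb : 0 < b) (hL : 0 ≤ mL) (hH : 0 ≤ mH)
    (hm : 0 < m) (hLH : mL + mH ≤ m) (hcT : Real.log (m / (a + b)) ≤ T0) :
    mL * ell T0 (mL / a) - (mL * (Real.log (m / (a + b)) + 1) - m / (a + b) * a) ≤
      psi T0 m (a + b) - psi T0 mL a - psi T0 mH b := by
  have hs : 0 < a + b := by linarith
  have hc : 0 < m / (a + b) := by positivity
  have h2 := tangent hH hb hc hcT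
  have h3 : ell T0 (m / (a + b)) = Real.log (m / (a + b)) := by
    unfold ell
    exact min_eq_left (by linarith)
  unfold psi
  rw [h3]
  set lc := Real.log (m / (a + b))
  have h4 : m / (a + b) * a + m / (a + b) * b = m := by field_simp
  have h5 : 0 ≤ (m - mL - mH) * (T0 + 1 - lc) := mul_nonneg (by linarith) (by linarith)
  nlinarith

theorem delta_nonneg {T0 m mL mH a b : ℝ} (ha : 0 < a) (hb : 0 < b) (hL : 0 ≤ mL) (hH : 0 ≤ mH)
    (hm : 0 < m) (hLH : mL + mH ≤ m) (hcT : Real.log (m / (a + b)) ≤ T0) :
    0 ≤ psi T0 m (a + b) - psi T0 mL a - psi T0 mH b := by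
  have h := delta_aux ha hb hL hH hm hLH hcT
  have h1 := tangent hL ha (by positivity : 0 < m / (a + b)) hcT
  linarith

theorem delta_key {T0 m mL mH a b A : ℝ} (ha : 0 < a) (hb : 0 < b) (hL : 0 ≤ mL) (hH : 0 ≤ mH)
    (hm : 0 < m) (hLH : mL + mH ≤ m) (hcT : Real.log (m / (a + b)) ≤ T0) (hA : 2 < A)
    (hsq : (a + b) ^ 2 ≤ 2 * a * m) :
    a + b ≤ A * mL + A ^ 2 / (A - 2) * (psi T0 m (a + b) - psi T0 mL a - psi T0 mH b) := by
  have hs : 0 < a + b := by linarith
  have hc : 0 < m / (a + b) := by positivity
  have hK : 0 < A ^ 2 / (A - 2) := div_pos (by positivity) (by linarith)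
  have h0 := delta_nonneg ha hb hL hH hm hLH hcT
  have hD := delta_aux ha hb hL hH hm hLH hcT
  set D := psi T0 m (a + b) - psi T0 mL a - psi T0 mH b with hDdef
  set w := m / (a + b) * a with hw
  have hw0 : 0 < w := by positivity
  have hsw : a + b ≤ 2 * w := by
    rw [hw]
    have : 2 * (m / (a + b) * a) = 2 * a * m / (a + b) := by ring
    rw [this, le_div_iff₀ hs]
    nlinarith
  by_cases h : 2 * w ≤ A * mL
  · have := mul_nonneg hK.le h0
    linarith
  · push Not at h
    have hLw : mL ≤ w := by nlinarith
    have h1 := tangent' hL ha hc hcT hLw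
    have h2 : w * ((1 - mL / w) ^ 2 / 4) ≤ D := by linarith
    have h3 := mul_le_mul_of_nonneg_left h2 hK.le
    have h4 : 2 * w ≤ A * mL + A ^ 2 / (A - 2) * (w * ((1 - mL / w) ^ 2 / 4)) := by
      have e1 : A ^ 2 / (A - 2) * (w * ((1 - mL / w) ^ 2 / 4)) = (A * w - A * mL) ^ 2 / (4 * (A - 2) * w) := by
        have hA2 : A - 2 ≠ 0 := by linarith
        field_simp
      rw [e1]
      have e2 : 2 * w - A * mL ≤ (A * w - A * mL) ^ 2 / (4 * (A - 2) * w) := by
        rw [le_div_iff₀ (by nlinarith)]
        nlinarith [sq_nonneg ((A - 2) * w - (2 * w - A * mL))]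
      linarith
    linarith

variable {τ α : Type} {ev : τ → α → Bool}

theorem sharp_aux {T : DTree τ} {Q QB R n : ℕ} {T0 A : ℝ} (hQ : 2 ≤ Q) (hQB : 2 ≤ QB) (hA : 2 < A)
    (hT0 : 2 * (QB : ℝ) * Real.log n ≤ Real.exp T0) (hR : Nat.log QB n ≤ R) {t : DTree τ}
    {S : Finset α} (hT : Sep ev T S) (ht : IsGreedy ev t S) (hn : S.card ≤ n) :
    (cost ev t S : ℝ) ≤ A * (Nat.log Q S.card * (mu ev T S : ℝ)) +
      A ^ 2 / (A - 2) * psi T0 (mu ev T S) S.card + 2 * Q * en S.card + (1 + 16 * R) * (mu ev T S : ℝ) := by
  have hK : 0 < A ^ 2 / (A - 2) := div_pos (by positivity) (by linarith)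
  have hQ' : (2 : ℝ) ≤ Q := by exact_mod_cast hQ
  induction t generalizing S with
  | leaf =>
    rw [cost_leaf]
    have h1 := en_nonneg S.card
    have h2 : (0 : ℝ) ≤ mu ev T S := Nat.cast_nonneg _
    have h3 := psi_nonneg (T0 := T0) (s := (S.card : ℝ)) h2
    have h4 := mul_nonneg hK.le h3
    have h5 : (0 : ℝ) ≤ Nat.log Q S.card * (mu ev T S : ℝ) := by positivity
    have h6 : (0 : ℝ) ≤ (1 + 16 * R) * (mu ev T S : ℝ) := by positivity
    have h7 : 0 ≤ 2 * (Q : ℝ) * en S.card := by positivity
    have h8 : 0 ≤ A * (Nat.log Q S.card * (mu ev T S : ℝ)) := mul_nonneg (by linarith) h5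
    push_cast
    linarith
  | node k l r ihl ihr =>
    have ht' := ht
    obtain ⟨hs, hmin, hl, hr⟩ := ht
    have hmax := greedy_mn hs hmin
    have hc := part_card (ev := ev) S k
    have hp := Finset.card_pos.2 hs.1
    have hq := Finset.card_pos.2 hs.2
    have hS : 2 ≤ S.card := by omega
    obtain ⟨kl, hkl, hle⟩ := light hs
    have ha : 1 ≤ (part ev S k kl).card := by rw [hkl]; exact mn_pos hs
    have hlow := mu_lower' (ev := ev) ha hT (by rw [hkl]; exact hmax) hS
    have hmS : S.card ≤ mu ev T S := by
      unfold mu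
      calc S.card = ∑ x ∈ S, 1 := by simp
        _ ≤ _ := Finset.sum_le_sum fun x hx => rd_pos hT hS hx
    have hmS' : (S.card : ℝ) ≤ mu ev T S := by exact_mod_cast hmS
    have hs2 : (2 : ℝ) ≤ S.card := by exact_mod_cast hS
    have hm0 : (0 : ℝ) < mu ev T S := by linarith
    have hlogn : (0 : ℝ) ≤ Nat.log Q S.card := Nat.cast_nonneg _
    by_cases hcT : Real.log ((mu ev T S : ℝ) / S.card) ≤ T0
    · have h1 := ihl (hT.mono (part_sub S k true)) hl ((Finset.card_le_card (part_sub S k true)).trans hn)
      have h2 := ihr (hT.mono (part_sub S k false)) hr ((Finset.card_le_card (part_sub S k false)).trans hn)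
      rw [cost_node]
      push_cast
      have hsum : ∀ F : Finset α → ℝ, F (part ev S k true) + F (part ev S k false) =
          F (part ev S k kl) + F (part ev S k !kl) := by
        intro F
        rcases kl with _ | _
        · rw [Bool.not_false]; ring
        · rw [Bool.not_true]
      have hc' : (part ev S k kl).card + (part ev S k !kl).card = S.card := by
        rcases kl with _ | _
        · rw [Bool.not_false]; omega
        · rw [Bool.not_true]; exact hc
      have hen : en (part ev S k true).card + en (part ev S k false).card =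
          en (part ev S k kl).card + en (part ev S k !kl).card := hsum fun B => en B.card
      have hlm := hsum fun B => Nat.log Q B.card * (mu ev T B : ℝ)
      have hpsi := hsum fun B => psi T0 (mu ev T B) B.card
      have hmu := hsum fun B => (mu ev T B : ℝ)
      beta_reduce at hlm hpsi hmu
      have hmp : (mu ev T (part ev S k true) : ℝ) + mu ev T (part ev S k false) ≤ mu ev T S := by
        exact_mod_cast mu_part T S k
      have hgain := en_gain ha hle
      rw [hc'] at hgain
      have l1 : (Nat.log Q (part ev S k !kl).card : ℝ) ≤ Nat.log Q S.card := by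
        exact_mod_cast Nat.log_mono_right (Finset.card_le_card (part_sub S k _))
      have l0 : (Nat.log Q (part ev S k kl).card : ℝ) ≤ Nat.log Q S.card := by
        exact_mod_cast Nat.log_mono_right (Finset.card_le_card (part_sub S k _))
      have hcr : (S.card : ℝ) = (part ev S k kl).card + (part ev S k !kl).card := by exact_mod_cast hc'.symm
      have hlowr : (S.card : ℝ) ^ 2 ≤ 2 * (part ev S k kl).card * mu ev T S := by exact_mod_cast hlow
      have har : (1 : ℝ) ≤ (part ev S k kl).card := by exact_mod_cast ha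
      have hbr : ((part ev S k kl).card : ℝ) ≤ (part ev S k !kl).card := by exact_mod_cast hle
      have hmL : (0 : ℝ) ≤ mu ev T (part ev S k kl) := Nat.cast_nonneg _
      have hmH : (0 : ℝ) ≤ mu ev T (part ev S k !kl) := Nat.cast_nonneg _
      have hbig : (cost ev l (part ev S k true) : ℝ) + cost ev r (part ev S k false) ≤
          A * (Nat.log Q (part ev S k kl).card * (mu ev T (part ev S k kl) : ℝ) +
            Nat.log Q (part ev S k !kl).card * (mu ev T (part ev S k !kl) : ℝ)) +
          A ^ 2 / (A - 2) * (psi T0 (mu ev T (part ev S k kl)) (part ev S k kl).card +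
            psi T0 (mu ev T (part ev S k !kl)) (part ev S k !kl).card) +
          2 * Q * (en (part ev S k kl).card + en (part ev S k !kl).card) +
          (1 + 16 * R) * ((mu ev T (part ev S k kl) : ℝ) + mu ev T (part ev S k !kl)) := by
        rw [← hlm, ← hpsi, ← hen, ← hmu]
        linarith
      rw [hmu] at hmp
      rw [hcr] at hcT
      have hdn := delta_nonneg (by linarith) (by linarith) hmL hmH hm0 hmp hcT
      rw [← hcr] at hdn
      have hR1 : (0 : ℝ) ≤ (1 + 16 * R) * ((mu ev T S : ℝ) - mu ev T (part ev S k kl) - mu ev T (part ev S k !kl)) :=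
        mul_nonneg (by positivity) (by linarith)
      set x := (Nat.log Q (part ev S k kl).card : ℝ)
      set y := (Nat.log Q (part ev S k !kl).card : ℝ)
      set z := (Nat.log Q S.card : ℝ)
      set m := (mu ev T S : ℝ)
      set mL := (mu ev T (part ev S k kl) : ℝ)
      set mH := (mu ev T (part ev S k !kl) : ℝ)
      have hyH : y * mH ≤ z * mH := mul_le_mul_of_nonneg_right l1 hmH
      have hzg : 0 ≤ z * (m - mL - mH) := mul_nonneg hlogn (by linarith)
      by_cases hbal : (part ev S k kl).card * Q ≤ S.card
      · have hlog : x + 1 ≤ z := by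
          have h' : ((Nat.log Q (part ev S k kl).card + 1 : ℕ) : ℝ) ≤ (Nat.log Q S.card : ℕ) :=
            Nat.cast_le.2 (log_drop hQ ha hbal)
          push_cast at h'
          exact h'
        have hkey := delta_key (by linarith) (by linarith) hmL hmH hm0 hmp hcT hA (by rw [← hcr]; exact hlowr)
        rw [← hcr] at hkey
        have hxL : (x + 1) * mL ≤ z * mL := mul_le_mul_of_nonneg_right hlog hmL
        have h5 : A * mL ≤ A * (z * m - x * mL - y * mH) :=
          mul_le_mul_of_nonneg_left (by linarith) (by linarith)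
        have h6 : 0 ≤ 2 * (Q : ℝ) * (en S.card - en (part ev S k kl).card - en (part ev S k !kl).card) :=
          mul_nonneg (by linarith) (by linarith)
        linarith
      · push Not at hbal
        have hxL : x * mL ≤ z * mL := mul_le_mul_of_nonneg_right l0 hmL
        have h5 : 0 ≤ A * (z * m - x * mL - y * mH) := mul_nonneg (by linarith) (by linarith)
        have h4 : (S.card : ℝ) ≤ (part ev S k kl).card * Q := by exact_mod_cast hbal.le
        have h6 : (2 : ℝ) * Q * ((part ev S k kl).card / 2) ≤
            2 * Q * (en S.card - en (part ev S k kl).card - en (part ev S k !kl).card) :=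
          mul_le_mul_of_nonneg_left hgain (by linarith)
        have h7 := mul_nonneg hK.le hdn
        linarith
    · push Not at hcT
      have hcr := crude (ev := ev) hQB hT ht'
      have h1 : Real.exp T0 < (mu ev T S : ℝ) / S.card := by
        rw [← Real.lt_log_iff_exp_lt (by positivity)]
        exact hcT
      rw [lt_div_iff₀ (by linarith)] at h1
      have h2 : 2 * (QB : ℝ) * en S.card ≤ mu ev T S := by
        have h3 : Real.log S.card ≤ Real.log n := by
          apply Real.log_le_log (by linarith)
          exact_mod_cast hn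
        have h4 : 2 * (QB : ℝ) * Real.log S.card ≤ 2 * QB * Real.log n :=
          mul_le_mul_of_nonneg_left h3 (by positivity)
        unfold en
        have h5 : 2 * (QB : ℝ) * Real.log S.card * S.card ≤ Real.exp T0 * S.card :=
          mul_le_mul_of_nonneg_right (h4.trans hT0) (by linarith)
        linarith
      have h3 : (Nat.log QB S.card : ℝ) ≤ R := by
        exact_mod_cast (Nat.log_mono_right hn).trans hR
      have h4 : (Nat.log QB S.card : ℝ) * (mu ev T S : ℝ) ≤ R * mu ev T S :=
        mul_le_mul_of_nonneg_right h3 hm0.le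
      have h5 := mul_nonneg hK.le (psi_nonneg (T0 := T0) (s := (S.card : ℝ)) hm0.le)
      have h6 : 0 ≤ A * (Nat.log Q S.card * (mu ev T S : ℝ)) := by
        have : (0 : ℝ) ≤ Nat.log Q S.card * (mu ev T S : ℝ) := by positivity
        exact mul_nonneg (by linarith) this
      have h7 : 0 ≤ 2 * (Q : ℝ) * en S.card := by
        have := en_nonneg S.card
        positivity
      linarith

/-- the sharp upper bound -/
theorem sharp {T : DTree τ} {Q QB n : ℕ} {T0 A : ℝ} (hQ : 2 ≤ Q) (hQB : 2 ≤ QB) (hA : 2 < A)
    (hT0 : 2 * (QB : ℝ) * Real.log n ≤ Real.exp T0) {t : DTree τ}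
    {X : Finset α} (hT : IsTree ev T X) (ht : IsGreedy ev t X) (hn : X.card = n) :
    (cost ev t X : ℝ) ≤ (A * Nat.log Q n + A ^ 2 / (A - 2) * (T0 + 2) + 2 * Q + 1 +
      16 * Nat.log QB n) * cost ev T X := by
  have hsep := hT.sep
  have h := sharp_aux (T0 := T0) (A := A) (R := Nat.log QB n) hQ hQB hA hT0 le_rfl hsep ht hn.le
  rw [mu_eq hT, hn] at h
  have hK : 0 < A ^ 2 / (A - 2) := div_pos (by positivity) (by linarith)
  have hlog := mu_log hsep
  rw [mu_eq hT, hn] at hlog
  have hen : 2 * (Q : ℝ) * en n ≤ 2 * Q * cost ev T X := by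
    unfold en
    have h2 : Real.log 2 * (cost ev T X : ℝ) ≤ 1 * cost ev T X := by
      apply mul_le_mul_of_nonneg_right _ (Nat.cast_nonneg _)
      have := Real.log_two_lt_d9
      linarith
    rw [one_mul] at h2
    exact mul_le_mul_of_nonneg_left (hlog.trans h2) (by positivity)
  have hpsi : psi T0 (cost ev T X) n ≤ (T0 + 2) * cost ev T X := by
    unfold psi
    have h3 : 0 ≤ (cost ev T X : ℝ) * ell T0 ((cost ev T X : ℝ) / n) := by
      by_cases h2 : 2 ≤ n
      · have hmS : X.card ≤ mu ev T X := by
          unfold mu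
          calc X.card = ∑ x ∈ X, 1 := by simp
            _ ≤ _ := Finset.sum_le_sum fun x hx => rd_pos hsep (by omega) hx
        rw [mu_eq hT, hn] at hmS
        have hn0 : (0 : ℝ) < n := by
          have : 0 < n := by omega
          exact_mod_cast this
        have h1 : (1 : ℝ) ≤ (cost ev T X : ℝ) / n := by
          rw [le_div_iff₀ hn0, one_mul]
          exact_mod_cast hmS
        apply mul_nonneg (Nat.cast_nonneg _)
        unfold ell
        apply le_min (Real.log_nonneg h1)
        by_contra hlt
        push Not at hlt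
        have h4 : Real.exp T0 < 1 := by
          rw [Real.exp_lt_one_iff]
          linarith
        have h5 : Real.log 2 ≤ Real.log n := Real.log_le_log (by norm_num) (by exact_mod_cast h2)
        have h6 : (0.5 : ℝ) ≤ Real.log 2 := by
          have := Real.log_two_gt_d9
          linarith
        have h7 : (2 : ℝ) ≤ QB := by exact_mod_cast hQB
        nlinarith
      · have hX : cost ev T X = 0 := by
          rcases T with _ | ⟨k, l, r⟩
          · exact cost_leaf X
          · exfalso
            have hc := part_card (ev := ev) X k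
            have hp := Finset.card_pos.2 hT.1.1
            have hq := Finset.card_pos.2 hT.1.2
            omega
        rw [hX]
        simp
    linarith
  have := mul_le_mul_of_nonneg_left hpsi hK.le
  linarith

end Pool.Agent.Helper35.GT
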