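import Pool.Agent.Helper35.GT.Defs

/-!
# Greedy decision trees: existence of trees, and the passage to vectors
-/

set_option autoImplicit false

open Finset

namespace Pool.Agent.Helper35.GT

section general

variable {τ α : Type} {ev : τ → α → Bool}

theorem exists_greedy (n : ℕ) : ∀ S : Finset α, S.card = n → S.Nonempty →
    (∀ x ∈ S, ∀ y ∈ S, x ≠ y → ∃ k, ev k x ≠ ev k y) → ∃ t : DTree τ, IsGreedy ev t S := by
  induction n using Nat.strong_induction_on with
  | _ n ih =>
    intro S hS hne hsep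
    by_cases h1 : S.card = 1
    · exact ⟨.leaf, h1⟩
    have h2 : 1 < S.card := by
      have := Finset.card_pos.2 hne
      omega
    obtain ⟨x, hx, y, hy, hxy⟩ := Finset.one_lt_card.1 h2
    obtain ⟨k, hk⟩ := hsep x hx y hy hxy
    have hspl : Splits ev S k := by
      unfold Splits
      rcases hkx : ev k x with _ | _ <;> rcases hky : ev k y with _ | _
      · rw [hkx, hky] at hk; exact absurd rfl hk
      · exact ⟨⟨y, mem_part.2 ⟨hy, hky⟩⟩, ⟨x, mem_part.2 ⟨hx, hkx⟩⟩⟩
      · exact ⟨⟨x, mem_part.2 ⟨hx, hkx⟩⟩, ⟨y, mem_part.2 ⟨hy, hky⟩⟩⟩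
      · rw [hkx, hky] at hk; exact absurd rfl hk
    have hbdd : BddAbove {v : ℕ | ∃ j, Splits ev S j ∧ mn ev S j = v} := by
      refine ⟨S.card, ?_⟩
      rintro v ⟨j, _, rfl⟩
      have := mn_le (ev := ev) S j
      omega
    have hV : sSup {v : ℕ | ∃ j, Splits ev S j ∧ mn ev S j = v} ∈ {v : ℕ | ∃ j, Splits ev S j ∧ mn ev S j = v} :=
      Nat.sSup_mem (s := {v : ℕ | ∃ j, Splits ev S j ∧ mn ev S j = v}) ⟨_, k, hspl, rfl⟩ hbdd
    obtain ⟨j, hj, hjv⟩ := hV
    have hmax : ∀ i, Splits ev S i → score ev S j ≤ score ev S i := by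
      intro i hi
      apply score_le hi hj
      rw [hjv]
      exact le_csSup hbdd ⟨i, hi, rfl⟩
    have hc := part_card (ev := ev) S j
    have hp := Finset.card_pos.2 hj.1
    have hq := Finset.card_pos.2 hj.2
    obtain ⟨t1, ht1⟩ := ih (part ev S j true).card (by omega) _ rfl hj.1
      (fun x hx y hy hxy => hsep x (part_sub S j true hx) y (part_sub S j true hy) hxy)
    obtain ⟨t2, ht2⟩ := ih (part ev S j false).card (by omega) _ rfl hj.2
      (fun x hx y hy hxy => hsep x (part_sub S j false hx) y (part_sub S j false hy) hxy)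
    exact ⟨.node j t1 t2, hj, hmax, ht1, ht2⟩

theorem tree_of_list (l : List τ) : ∀ S : Finset α, S.Nonempty →
    (∀ x ∈ S, ∀ y ∈ S, x ≠ y → ∃ k ∈ l, ev k x ≠ ev k y) →
    ∃ T : DTree τ, IsTree ev T S ∧ ∀ x ∈ S, depth ev T x ≤ l.length := by
  induction l with
  | nil =>
    intro S hne hsep
    have h1 : S.card = 1 := by
      by_contra hlt
      have h2 : 1 < S.card := by
        have := Finset.card_pos.2 hne
        omega
      obtain ⟨x, hx, y, hy, hxy⟩ := Finset.one_lt_card.1 h2
      obtain ⟨k, hk, _⟩ := hsep x hx y hy hxy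
      exact absurd hk (List.not_mem_nil)
    exact ⟨.leaf, h1, fun x _ => Nat.zero_le _⟩
  | cons k l ih =>
    intro S hne hsep
    by_cases hs : Splits ev S k
    · have aux : ∀ b, ∀ x ∈ part ev S k b, ∀ y ∈ part ev S k b, x ≠ y → ∃ j ∈ l, ev j x ≠ ev j y := by
        intro b x hx y hy hxy
        obtain ⟨j, hj, hjxy⟩ := hsep x (part_sub S k b hx) y (part_sub S k b hy) hxy
        rcases List.mem_cons.1 hj with rfl | hj
        · rw [(mem_part.1 hx).2, (mem_part.1 hy).2] at hjxy
          exact absurd rfl hjxy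
        · exact ⟨j, hj, hjxy⟩
      obtain ⟨T1, h1, d1⟩ := ih _ hs.1 (aux true)
      obtain ⟨T2, h2, d2⟩ := ih _ hs.2 (aux false)
      refine ⟨.node k T1 T2, ⟨hs, h1, h2⟩, fun x hx => ?_⟩
      rw [depth, List.length_cons]
      rcases hkx : ev k x with _ | _
      · have := d2 x (mem_part.2 ⟨hx, hkx⟩)
        simp only [Bool.false_eq_true, if_false]
        omega
      · have := d1 x (mem_part.2 ⟨hx, hkx⟩)
        simp only [if_true]
        omega
    · have aux : ∀ x ∈ S, ∀ y ∈ S, x ≠ y → ∃ j ∈ l, ev j x ≠ ev j y := by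
        intro x hx y hy hxy
        obtain ⟨j, hj, hjxy⟩ := hsep x hx y hy hxy
        rcases List.mem_cons.1 hj with rfl | hj
        · exfalso
          rcases not_splits hs with ⟨h, h'⟩ | ⟨h, h'⟩
          · rw [← h'] at hx hy
            exact hjxy ((mem_part.1 hx).2.trans (mem_part.1 hy).2.symm)
          · rw [← h] at hx hy
            exact hjxy ((mem_part.1 hx).2.trans (mem_part.1 hy).2.symm)
        · exact ⟨j, hj, hjxy⟩
      obtain ⟨T, h, d⟩ := ih S hne aux
      refine ⟨T, h, fun x hx => (d x hx).trans ?_⟩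
      rw [List.length_cons]
      omega

/-- the cost is at most the number of items times the bound on the depths -/
theorem cost_le_of_depth {T : DTree τ} {S : Finset α} {d : ℕ} (h : ∀ x ∈ S, depth ev T x ≤ d) :
    cost ev T S ≤ S.card * d := by
  unfold cost
  calc ∑ x ∈ S, depth ev T x ≤ ∑ x ∈ S, d := Finset.sum_le_sum h
    _ = S.card * d := by rw [Finset.sum_const, smul_eq_mul]

/-- if a test is true exactly on `A`, the smaller part has at most `|A|` elements -/
theorem mn_le_card {S A : Finset α} {k : τ} (h : part ev S k true ⊆ A) : mn ev S k ≤ A.card :=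
  (min_le_left _ _).trans (Finset.card_le_card h)

theorem opt_le {T : DTree τ} {S : Finset α} (h : IsTree ev T S) : opt ev S ≤ cost ev T S :=
  Nat.sInf_le ⟨T, h, rfl⟩

theorem opt_attained {T : DTree τ} {S : Finset α} (h : IsTree ev T S) :
    ∃ T' : DTree τ, IsTree ev T' S ∧ cost ev T' S = opt ev S :=
  Nat.sInf_mem (s := {c : ℕ | ∃ t : DTree τ, IsTree ev t S ∧ cost ev t S = c}) ⟨_, T, h, rfl⟩

end general

/-- Relabelling of the tests. -/
def DTree.map {τ σ : Type} (f : τ → σ) : DTree τ → DTree σ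
  | .leaf => .leaf
  | .node k l r => .node (f k) (DTree.map f l) (DTree.map f r)

section transfer

variable {τ σ α β : Type} {ev : τ → α → Bool} {ev' : σ → β → Bool} (e : τ ≃ σ) (φ : α → β)

theorem part_image [DecidableEq β] (hφ : ∀ k x, ev' (e k) (φ x) = ev k x) (S : Finset α) (k : τ) (b : Bool) :
    part ev' (S.image φ) (e k) b = (part ev S k b).image φ := by
  unfold part
  rw [Finset.filter_image]
  congr 1
  apply Finset.filter_congr
  intro x _
  rw [hφ]

theorem splits_image [DecidableEq β] (hφ : ∀ k x, ev' (e k) (φ x) = ev k x) (S : Finset α) (k : τ) :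
    Splits ev' (S.image φ) (e k) ↔ Splits ev S k := by
  unfold Splits
  rw [part_image e φ hφ, part_image e φ hφ, Finset.image_nonempty, Finset.image_nonempty]

theorem isTree_map [DecidableEq β] (hφ : ∀ k x, ev' (e k) (φ x) = ev k x) {t : DTree τ} {S : Finset α}
    (hinj : Set.InjOn φ S) (h : IsTree ev t S) : IsTree ev' (t.map e) (S.image φ) := by
  induction t generalizing S with
  | leaf =>
    have h1 : S.card = 1 := h
    show (S.image φ).card = 1
    rw [Finset.card_image_of_injOn hinj, h1]
  | node k l r ihl ihr =>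
    obtain ⟨hs, hl, hr⟩ := h
    refine ⟨(splits_image e φ hφ S k).2 hs, ?_, ?_⟩
    · rw [part_image e φ hφ]
      exact ihl (hinj.mono (Finset.coe_subset.2 (part_sub S k true))) hl
    · rw [part_image e φ hφ]
      exact ihr (hinj.mono (Finset.coe_subset.2 (part_sub S k false))) hr

theorem score_image [DecidableEq β] (hφ : ∀ k x, ev' (e k) (φ x) = ev k x) {S : Finset α}
    (hinj : Set.InjOn φ S) (k : τ) : score ev' (S.image φ) (e k) = score ev S k := by
  unfold score
  rw [part_image e φ hφ, part_image e φ hφ,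
    Finset.card_image_of_injOn (hinj.mono (Finset.coe_subset.2 (part_sub S k true))),
    Finset.card_image_of_injOn (hinj.mono (Finset.coe_subset.2 (part_sub S k false)))]

theorem isGreedy_map [DecidableEq β] (hφ : ∀ k x, ev' (e k) (φ x) = ev k x) {t : DTree τ} {S : Finset α}
    (hinj : Set.InjOn φ S) (h : IsGreedy ev t S) : IsGreedy ev' (t.map e) (S.image φ) := by
  induction t generalizing S with
  | leaf =>
    have h1 : S.card = 1 := h
    show (S.image φ).card = 1
    rw [Finset.card_image_of_injOn hinj, h1]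
  | node k l r ihl ihr =>
    obtain ⟨hs, hm, hl, hr⟩ := h
    refine ⟨(splits_image e φ hφ S k).2 hs, ?_, ?_, ?_⟩
    · intro j hj
      obtain ⟨i, rfl⟩ := e.surjective j
      rw [score_image e φ hφ hinj, score_image e φ hφ hinj]
      exact hm i ((splits_image e φ hφ S i).1 hj)
    · rw [part_image e φ hφ]
      exact ihl (hinj.mono (Finset.coe_subset.2 (part_sub S k true))) hl
    · rw [part_image e φ hφ]
      exact ihr (hinj.mono (Finset.coe_subset.2 (part_sub S k false))) hr

theorem depth_map (hφ : ∀ k x, ev' (e k) (φ x) = ev k x) (t : DTree τ) (x : α) :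
    depth ev' (t.map e) (φ x) = depth ev t x := by
  induction t with
  | leaf => rfl
  | node k l r ihl ihr =>
    show 1 + (if ev' (e k) (φ x) = true then depth ev' (l.map e) (φ x) else depth ev' (r.map e) (φ x)) = _
    rw [hφ, ihl, ihr]
    rfl

theorem cost_map [DecidableEq β] (hφ : ∀ k x, ev' (e k) (φ x) = ev k x) (t : DTree τ) {S : Finset α}
    (hinj : Set.InjOn φ S) : cost ev' (t.map e) (S.image φ) = cost ev t S := by
  unfold cost
  rw [Finset.sum_image hinj]
  exact Finset.sum_congr rfl fun x _ => depth_map e φ hφ t x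

end transfer

/-- the passage to vectors -/
theorem to_vectors {τ α : Type} [Finite τ] {ev : τ → α → Bool} {S : Finset α}
    (hsep : ∀ x ∈ S, ∀ y ∈ S, x ≠ y → ∃ k, ev k x ≠ ev k y) {t T : DTree τ} (ht : IsGreedy ev t S)
    (hT : IsTree ev T S) : ∃ (m : ℕ) (X : Finset (Fin m → Bool)) (t' : DTree (Fin m)), X.card = S.card ∧
      IsGreedy coord t' X ∧ cost coord t' X = cost ev t S ∧ opt coord X ≤ cost ev T S := by
  classical
  have := Fintype.ofFinite τ
  let e : τ ≃ Fin (Fintype.card τ) := Fintype.equivFin τ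
  let φ : α → (Fin (Fintype.card τ) → Bool) := fun x i => ev (e.symm i) x
  have hφ : ∀ k x, coord (e k) (φ x) = ev k x := by
    intro k x
    show ev (e.symm (e k)) x = ev k x
    rw [Equiv.symm_apply_apply]
  have hinj : Set.InjOn φ S := by
    intro x hx y hy hxy
    by_contra hne
    obtain ⟨k, hk⟩ := hsep x hx y hy hne
    apply hk
    rw [← hφ k x, ← hφ k y, hxy]
  refine ⟨Fintype.card τ, S.image φ, t.map e, Finset.card_image_of_injOn hinj,
    isGreedy_map e φ hφ hinj ht, cost_map e φ hφ t hinj, ?_⟩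
  rw [← cost_map e φ hφ T hinj]
  exact opt_le (isTree_map e φ hφ hinj hT)

end Pool.Agent.Helper35.GT
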