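import Pool.Agent.Helper35.GT.Sharp

/-!
# Greedy decision trees: the asymptotic form of the upper bound
-/

set_option autoImplicit false

open Finset Filter Topology

namespace Pool.Agent.Helper35.GT

theorem tendsto_g (A η : ℝ) (hη : 0 < η) : Tendsto (fun x : ℝ => A / (1 - η) +
    A ^ 2 / (A - 2) * ((x ^ 2 + 2) * x * Real.exp (-x)) +
    (2 * Real.exp ((1 - η) * x) + 3) * x * Real.exp (-x) + 64 / x) atTop (𝓝 (A / (1 - η))) := by
  have h3 := Real.tendsto_pow_mul_exp_neg_atTop_nhds_zero 3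
  have h1 := Real.tendsto_pow_mul_exp_neg_atTop_nhds_zero 1
  have h4 := tendsto_rpow_mul_exp_neg_mul_atTop_nhds_zero 1 η hη
  have h5 : Tendsto (fun x : ℝ => 64 / x) atTop (𝓝 0) := tendsto_const_nhds.div_atTop tendsto_id
  have e1 : Tendsto (fun x : ℝ => A ^ 2 / (A - 2) * ((x ^ 2 + 2) * x * Real.exp (-x))) atTop (𝓝 0) := by
    have := (h3.add (h1.const_mul 2)).const_mul (A ^ 2 / (A - 2))
    simp only [mul_zero, add_zero] at this
    refine this.congr fun x => ?_
    ring
  have e2 : Tendsto (fun x : ℝ => (2 * Real.exp ((1 - η) * x) + 3) * x * Real.exp (-x)) atTop (𝓝 0) := by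
    have := (h4.const_mul 2).add (h1.const_mul 3)
    simp only [mul_zero, add_zero] at this
    refine this.congr fun x => ?_
    rw [Real.rpow_one]
    have : Real.exp (-η * x) = Real.exp ((1 - η) * x) * Real.exp (-x) := by
      rw [← Real.exp_add]
      congr 1
      ring
    rw [this]
    ring
  have := ((tendsto_const_nhds (x := A / (1 - η))).add e1).add e2 |>.add h5
  simpa using this

theorem tendsto_loglog : Tendsto (fun n : ℕ => Real.log (Real.log n)) atTop atTop :=
  Real.tendsto_log_atTop.comp (Real.tendsto_log_atTop.comp tendsto_natCast_atTop_atTop)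

theorem upper {ε : ℝ} (hε : 0 < ε) : ∀ᶠ n : ℕ in atTop, ∀ (τ α : Type) (ev : τ → α → Bool) (X : Finset α)
    (t T : DTree τ), X.card = n → IsGreedy ev t X → IsTree ev T X →
    (cost ev t X : ℝ) * Real.log (Real.log n) ≤ (2 + ε) * Real.log n * cost ev T X := by
  set δ := ε / 4 with hδ
  have hδ0 : 0 < δ := by positivity
  set η := δ / (2 + 2 * δ) with hη
  have hη0 : 0 < η := by positivity
  have h1η : 1 - η = (2 + δ) / (2 + 2 * δ) := by rw [hη]; field_simp; ring
  have h1η0 : 0 < 1 - η := by rw [h1η]; positivity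
  set A := 2 + δ with hA
  have hA2 : 2 < A := by linarith
  have hlim : A / (1 - η) = 2 + 2 * δ := by rw [h1η, hA]; field_simp
  have hg := tendsto_g A η hη0
  rw [hlim] at hg
  have hev := (tendsto_loglog.eventually (hg.eventually (gt_mem_nhds (show 2 + 2 * δ < 2 + ε by linarith)))).and
    (tendsto_loglog.eventually (eventually_ge_atTop 4))
  filter_upwards [hev, eventually_ge_atTop 2] with n hn hn2
  obtain ⟨hgn, hl4⟩ := hn
  intro τ α ev X t T hX ht hT
  set L := Real.log n with hL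
  set l := Real.log L with hl
  have hL0 : 0 < L := by
    by_contra hlt
    push Not at hlt
    have hL1 : 0 ≤ L := Real.log_natCast_nonneg n
    have : L = 0 := le_antisymm hlt hL1
    rw [hl, this, Real.log_zero] at hl4
    norm_num at hl4
  have hLe : L = Real.exp l := (Real.exp_log hL0).symm
  set Q := ⌈Real.exp ((1 - η) * l)⌉₊ with hQdef
  set QB := ⌊Real.exp (l ^ 2 / 2)⌋₊ with hQBdef
  have hl0 : 0 < l := by linarith
  have hexp1 : 1 < Real.exp ((1 - η) * l) := Real.one_lt_exp_iff.2 (mul_pos h1η0 hl0)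
  have hQ2 : 2 ≤ Q := by
    have : 1 < Q := by
      rw [hQdef, Nat.lt_ceil]
      exact_mod_cast hexp1
    omega
  have hQle : (Q : ℝ) ≤ Real.exp ((1 - η) * l) + 1 := (Nat.ceil_lt_add_one (by positivity)).le
  have hQge : Real.exp ((1 - η) * l) ≤ Q := Nat.le_ceil _
  have hexp8 : (8 : ℝ) ≤ Real.exp (l ^ 2 / 2) := by
    have h1 : (8 : ℝ) ≤ l ^ 2 / 2 := by nlinarith
    have h2 := Real.add_one_le_exp (l ^ 2 / 2)
    linarith
  have hQBle : (QB : ℝ) ≤ Real.exp (l ^ 2 / 2) := Nat.floor_le (by positivity)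
  have hQBge : Real.exp (l ^ 2 / 2) / 2 ≤ QB := by
    have := Nat.lt_floor_add_one (Real.exp (l ^ 2 / 2))
    rw [← hQBdef] at this
    linarith
  have hQB2 : 2 ≤ QB := by
    have : (2 : ℝ) ≤ QB := by linarith
    exact_mod_cast this
  have hT0 : 2 * (QB : ℝ) * Real.log n ≤ Real.exp (l ^ 2) := by
    have h1 : (2 : ℝ) ≤ Real.exp 1 := by
      have := Real.add_one_le_exp (1 : ℝ)
      linarith
    calc 2 * (QB : ℝ) * Real.log n ≤ Real.exp 1 * Real.exp (l ^ 2 / 2) * Real.exp l := by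
          rw [← hL, ← hLe]
          apply mul_le_mul_of_nonneg_right _ hL0.le
          exact mul_le_mul h1 hQBle (Nat.cast_nonneg _) (Real.exp_pos _).le
      _ = Real.exp (1 + l ^ 2 / 2 + l) := by rw [← Real.exp_add, ← Real.exp_add]
      _ ≤ Real.exp (l ^ 2) := Real.exp_le_exp.2 (by nlinarith)
  have hmain := sharp (T0 := l ^ 2) (A := A) hQ2 hQB2 hA2 hT0 hT ht hX
  have hlogQ : (Nat.log Q n : ℝ) * ((1 - η) * l) ≤ L := by
    have h1 := Real.natLog_le_logb n Q
    have h2 : (1 - η) * l ≤ Real.log Q := by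
      rw [Real.le_log_iff_exp_le (by
        have : (2 : ℝ) ≤ Q := by exact_mod_cast hQ2
        linarith)]
      exact hQge
    have h3 : 0 < Real.log Q := lt_of_lt_of_le (mul_pos h1η0 hl0) h2
    rw [Real.logb, le_div_iff₀ h3] at h1
    exact (mul_le_mul_of_nonneg_left h2 (Nat.cast_nonneg _)).trans h1
  have hlogQB : (Nat.log QB n : ℝ) * (l ^ 2 / 4) ≤ L := by
    have h1 := Real.natLog_le_logb n QB
    have hQB' : (2 : ℝ) ≤ QB := by exact_mod_cast hQB2
    have h2 : l ^ 2 / 4 ≤ Real.log QB := by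
      rw [Real.le_log_iff_exp_le (by linarith)]
      refine le_trans ?_ hQBge
      rw [le_div_iff₀ (by norm_num)]
      have h4 : (2 : ℝ) ≤ Real.exp 1 := by
        have := Real.add_one_le_exp (1 : ℝ)
        linarith
      calc Real.exp (l ^ 2 / 4) * 2 ≤ Real.exp (l ^ 2 / 4) * Real.exp 1 :=
            mul_le_mul_of_nonneg_left h4 (Real.exp_pos _).le
        _ = Real.exp (l ^ 2 / 4 + 1) := by rw [← Real.exp_add]
        _ ≤ Real.exp (l ^ 2 / 2) := Real.exp_le_exp.2 (by nlinarith)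
    have h3 : 0 < Real.log QB := Real.log_pos (by linarith)
    rw [Real.logb, le_div_iff₀ h3] at h1
    exact (mul_le_mul_of_nonneg_left h2 (Nat.cast_nonneg _)).trans h1
  have hc0 : (0 : ℝ) ≤ cost ev T X := Nat.cast_nonneg _
  have hkey : (A * Nat.log Q n + A ^ 2 / (A - 2) * (l ^ 2 + 2) + 2 * Q + 1 + 16 * Nat.log QB n) * l ≤
      (2 + ε) * L := by
    have h1 : A * (Nat.log Q n : ℝ) * l ≤ A / (1 - η) * L := by
      have : A * (Nat.log Q n : ℝ) * l = A / (1 - η) * ((Nat.log Q n : ℝ) * ((1 - η) * l)) := by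
        field_simp
      rw [this]
      exact mul_le_mul_of_nonneg_left hlogQ (by positivity)
    have h2 : 16 * (Nat.log QB n : ℝ) * l ≤ 64 / l * L := by
      have : 16 * (Nat.log QB n : ℝ) * l = 64 / l * ((Nat.log QB n : ℝ) * (l ^ 2 / 4)) := by
        field_simp
        ring
      rw [this]
      exact mul_le_mul_of_nonneg_left hlogQB (by positivity)
    have h3 : (2 * (Q : ℝ) + 1) * l ≤ (2 * Real.exp ((1 - η) * l) + 3) * l * Real.exp (-l) * L := by
      have : (2 * Real.exp ((1 - η) * l) + 3) * l * Real.exp (-l) * L = (2 * Real.exp ((1 - η) * l) + 3) * l := by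
        rw [mul_assoc, hLe, ← Real.exp_add]
        simp
      rw [this]
      exact mul_le_mul_of_nonneg_right (by linarith) hl0.le
    have h4 : A ^ 2 / (A - 2) * (l ^ 2 + 2) * l = A ^ 2 / (A - 2) * ((l ^ 2 + 2) * l * Real.exp (-l)) * L := by
      have : Real.exp (-l) * L = 1 := by
        rw [hLe, ← Real.exp_add]
        simp
      calc A ^ 2 / (A - 2) * (l ^ 2 + 2) * l = A ^ 2 / (A - 2) * ((l ^ 2 + 2) * l) * 1 := by ring
        _ = A ^ 2 / (A - 2) * ((l ^ 2 + 2) * l) * (Real.exp (-l) * L) := by rw [this]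
        _ = _ := by ring
    have h5 := mul_le_mul_of_nonneg_right hgn.le hL0.le
    rw [← hlim] at h5
    nlinarith
  calc (cost ev t X : ℝ) * l ≤ (A * Nat.log Q n + A ^ 2 / (A - 2) * (l ^ 2 + 2) + 2 * Q + 1 +
        16 * Nat.log QB n) * cost ev T X * l := mul_le_mul_of_nonneg_right hmain hl0.le
    _ = (A * Nat.log Q n + A ^ 2 / (A - 2) * (l ^ 2 + 2) + 2 * Q + 1 + 16 * Nat.log QB n) * l *
        cost ev T X := by ring
    _ ≤ (2 + ε) * L * cost ev T X := mul_le_mul_of_nonneg_right hkey hc0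

end Pool.Agent.Helper35.GT
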